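import Pool.Agent.Helper81.CPY.Clo

/-! AN EVENT OF AN EXTENSION OF (an event of an extension) IS AN EVENT OF AN EXTENSION (equality of pairs (space,
system)). -/

set_option autoImplicit false

namespace Pool.Agent.Helper81.CPY

open Finset Filter Topology Matrix Pool.Agent.Helper69.RK Pool.Agent.Helper31.EC Pool.Agent.Helper31.EC.Sp
open Pool.Agent.Helper40.EL Pool.Agent.Helper84.MT

noncomputable section

/-! ### finite spaces -/

section fin

variable {F T : FSp} (p : FPj T F) (A : T.Ω → Prop) {T' : FSp} (p' : FPj T' (FSp.im p A)) (A' : T'.Ω → Prop)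

/-- the number, or one if it is zero -/
def nz (x : ℝ) : ℝ := if x = 0 then 1 else x

theorem nz_pos {x : ℝ} (h : 0 ≤ x) : 0 < nz x := by
  unfold nz
  split_ifs with h1
  · exact one_pos
  · exact lt_of_le_of_ne h fun h2 => h1 h2.symm

/-- the part of the law outside of the event -/
def outμ (ω : T.Ω) : ℝ := if T.pb A = 0 then 0 else res T.μ (fun ω => ¬ A ω) ω

theorem outμ_nonneg (ω : T.Ω) : 0 ≤ outμ A ω := by
  unfold outμ
  split_ifs
  · exact le_rfl
  · exact T.res_nonneg _ ω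

theorem nz_rest (ω : T.Ω) : nz (T.pb A) * T.restμ A ω + outμ A ω = T.μ ω := by
  unfold nz outμ
  by_cases h : T.pb A = 0
  · rw [if_pos h, if_pos h, T.restμ_eq' A h]
    ring
  · rw [if_neg h, if_neg h, T.restμ_eq A h]
    show T.pb A * ((T.pb A)⁻¹ * res T.μ A ω) + res T.μ (fun ω => ¬ A ω) ω = T.μ ω
    rw [mul_inv_cancel_left₀ h]
    unfold res
    by_cases h1 : A ω
    · rw [if_pos h1, if_neg fun h2 => h2 h1, add_zero]
    · rw [if_neg h1, if_pos h1, zero_add]

theorem push_lin {Ω Ω' : Type} [Fintype Ω'] (π : Ω' → Ω) (a : ℝ) (f g : Ω' → ℝ) (ω : Ω) :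
    push π (fun x => a * f x + g x) ω = a * push π f ω + push π g ω := by
  classical
  unfold push
  rw [Finset.mul_sum, ← Finset.sum_add_distrib]
  refine Finset.sum_congr rfl fun x _ => ?_
  by_cases h : π x = ω
  · rw [if_pos h, if_pos h, if_pos h]
  · rw [if_neg h, if_neg h, if_neg h]
    ring

theorem push_sum {Ω Ω₁ Ω₂ : Type} [Fintype Ω₁] [Fintype Ω₂] (π₁ : Ω₁ → Ω) (π₂ : Ω₂ → Ω) (f : Ω₁ → ℝ) (g : Ω₂ → ℝ)
    (ω : Ω) : push (Sum.elim π₁ π₂) (Sum.elim f g) ω = push π₁ f ω + push π₂ g ω := by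
  unfold push
  rw [Fintype.sum_sum_type]
  rfl

/-- the space -/
def imW : FSp where
  Ω := T'.Ω ⊕ T.Ω
  ft := inferInstance
  μ := Sum.elim (fun x => nz (T.pb A) * T'.μ x) (outμ A)
  nn := by
    rintro (x | y)
    · exact mul_nonneg (nz_pos (T.pb_nonneg A)).le (T'.nn x)
    · exact outμ_nonneg A y
  ms := by
    have h1 : ∑ y, (nz (T.pb A) * T.restμ A y + outμ A y) = ∑ y, T.μ y := Finset.sum_congr rfl fun y _ => nz_rest A y
    rw [Finset.sum_add_distrib, ← Finset.mul_sum] at h1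
    have h2 : ∑ y, T.restμ A y = 1 := (T.rest A).ms
    have h3 : ∑ y, T.μ y = 1 := T.ms
    have h4 : ∑ x, T'.μ x = 1 := T'.ms
    show ∑ w : T'.Ω ⊕ T.Ω, _ = 1
    rw [Fintype.sum_sum_type]
    show ∑ x, nz (T.pb A) * T'.μ x + ∑ y, outμ A y = 1
    rw [← Finset.mul_sum, h4]
    rw [h2, h3] at h1
    exact h1
  Z := Setoid.comap (Sum.elim p'.π p.π) F.Z
  n := F.n
  pos := F.pos

/-- the projection -/
def imP : FPj (imW p A p') F where
  π := Sum.elim p'.π p.π
  law := by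
    funext ω
    have h1 : push (Sum.elim p'.π p.π) (Sum.elim (fun x => nz (T.pb A) * T'.μ x) (outμ A)) ω =
        push p'.π (fun x => nz (T.pb A) * T'.μ x) ω + push p.π (outμ A) ω := push_sum _ _ _ _ ω
    have h2 : push p'.π (fun x => nz (T.pb A) * T'.μ x + 0) ω = nz (T.pb A) * push p'.π T'.μ ω +
        push p'.π (fun _ => (0 : ℝ)) ω := push_lin p'.π (nz (T.pb A)) T'.μ (fun _ => 0) ω
    have h3 : push p'.π (fun _ => (0 : ℝ)) ω = 0 := by
      unfold push
      exact Finset.sum_eq_zero fun x _ => ite_self 0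
    have h4 : (fun x => nz (T.pb A) * T'.μ x + 0) = fun x => nz (T.pb A) * T'.μ x := funext fun x => add_zero _
    have h5 : push p'.π T'.μ ω = push p.π (T.restμ A) ω := congrFun p'.law ω
    have h6 : push p.π (fun x => nz (T.pb A) * T.restμ A x + outμ A x) ω =
        nz (T.pb A) * push p.π (T.restμ A) ω + push p.π (outμ A) ω := push_lin p.π _ _ _ ω
    have h7 : (fun x => nz (T.pb A) * T.restμ A x + outμ A x) = T.μ := funext fun x => nz_rest A x
    rw [h4, h3, add_zero] at h2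
    rw [h7, congrFun p.law ω] at h6
    show push (Sum.elim p'.π p.π) (Sum.elim (fun x => nz (T.pb A) * T'.μ x) (outμ A)) ω = F.μ ω
    rw [h1, h2, h5]
    exact h6.symm
  hZ := fun _ _ _ _ => Iff.rfl

/-- the event -/
def imB : (imW p A p').Ω → Prop := Sum.elim (fun x => T'.pb A' = 0 ∨ A' x) fun _ => False

theorem imB_res (x : T'.Ω) : res T'.μ (fun x => T'.pb A' = 0 ∨ A' x) x = nz (T'.pb A') * T'.restμ A' x := by
  unfold nz
  by_cases h : T'.pb A' = 0
  · rw [if_pos h, T'.restμ_eq' A' h, one_mul]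
    unfold res
    rw [if_pos (Or.inl h)]
  · rw [if_neg h, T'.restμ_eq A' h]
    show _ = T'.pb A' * ((T'.pb A')⁻¹ * res T'.μ A' x)
    rw [mul_inv_cancel_left₀ h]
    unfold res
    by_cases h1 : A' x
    · rw [if_pos h1, if_pos (Or.inr h1)]
    · rw [if_neg h1, if_neg fun h2 => h2.elim h h1]

theorem imB_res' (w : (imW p A p').Ω) : res (imW p A p').μ (imB p A p' A') w =
    Sum.elim (fun x => nz (T.pb A) * (nz (T'.pb A') * T'.restμ A' x)) (fun _ => (0 : ℝ)) w := by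
  rcases w with x | y
  · show res (imW p A p').μ (imB p A p' A') (Sum.inl x) = nz (T.pb A) * (nz (T'.pb A') * T'.restμ A' x)
    rw [← imB_res A' x]
    unfold res
    by_cases h : T'.pb A' = 0 ∨ A' x
    · rw [if_pos h]
      exact if_pos h
    · rw [if_neg h, mul_zero]
      exact if_neg h
  · unfold res
    exact if_neg fun h => h

theorem imB_pb : (imW p A p').pb (imB p A p' A') = nz (T.pb A) * nz (T'.pb A') := by
  have h1 : (imW p A p').pb (imB p A p' A') = ∑ w : T'.Ω ⊕ T.Ω,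
      Sum.elim (fun x => nz (T.pb A) * (nz (T'.pb A') * T'.restμ A' x)) (fun _ => (0 : ℝ)) w :=
    Finset.sum_congr rfl fun w _ => imB_res' p A p' A' w
  rw [h1, Fintype.sum_sum_type]
  have h2 : ∑ x, T'.restμ A' x = 1 := (T'.rest A').ms
  show ∑ x, nz (T.pb A) * (nz (T'.pb A') * T'.restμ A' x) + ∑ _y : T.Ω, (0 : ℝ) = _
  rw [← Finset.mul_sum, ← Finset.mul_sum, h2, Finset.sum_const_zero, mul_one, add_zero]

/-- THE LAWS AGREE -/
theorem imW_law : (FSp.im (imP p A p') (imB p A p' A')).μ = (FSp.im p' A').μ := by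
  have h0 : (imW p A p').pb (imB p A p' A') ≠ 0 := by
    rw [imB_pb]
    exact (mul_pos (nz_pos (T.pb_nonneg A)) (nz_pos (T'.pb_nonneg A'))).ne'
  have h1 : (imW p A p').restμ (imB p A p' A') = Sum.elim (T'.restμ A') (fun _ => (0 : ℝ)) := by
    rw [FSp.restμ_eq _ _ h0]
    funext w
    rw [imB_res', imB_pb]
    have a := (nz_pos (T.pb_nonneg A)).ne'
    have b := (nz_pos (T'.pb_nonneg A')).ne'
    rcases w with x | y
    · show (nz (T.pb A) * nz (T'.pb A'))⁻¹ * (nz (T.pb A) * (nz (T'.pb A') * T'.restμ A' x)) = T'.restμ A' x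
      rw [← mul_assoc, ← mul_assoc, mul_assoc _ _ (nz (T'.pb A')), inv_mul_cancel₀ (mul_ne_zero a b), one_mul]
    · show _ * (0 : ℝ) = 0
      rw [mul_zero]
  funext ω
  show push (Sum.elim p'.π p.π) ((imW p A p').restμ (imB p A p' A')) ω = push p'.π (T'.restμ A') ω
  rw [h1]
  have h2 : push (Sum.elim p'.π p.π) (Sum.elim (T'.restμ A') (fun _ => (0 : ℝ))) ω =
      push p'.π (T'.restμ A') ω + push p.π (fun _ => (0 : ℝ)) ω := push_sum _ _ _ _ ω
  have h3 : push p.π (fun _ => (0 : ℝ)) ω = 0 := by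
    unfold push
    exact Finset.sum_eq_zero fun x _ => ite_self 0
  rw [h3, add_zero] at h2
  exact h2

end fin

/-! ### spaces -/

variable {S T T' : Sp} {M : ℕ} {E : ℕ → ℕ} {ι : Type}

/-- AN EVENT OF AN EXTENSION OF AN EVENT OF AN EXTENSION -/
theorem im_im (p : Pj T S) (A : ∀ k, (T.F k).Ω → Prop) (hA : 0 < ul (T.pr A)) (p' : Pj T' (Sp.im p A))
    (A' : ∀ k, (T'.F k).Ω → Prop) (hA' : 0 < ul (T'.pr A')) : ∃ (W : Sp) (q : Pj W S) (B : ∀ k, (W.F k).Ω → Prop)
    (hB : 0 < ul (W.pr B)), ∀ s : MSys S M E ι,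
    (⟨_, (s.im p A hA).im p' A' hA'⟩ : Σ S : Sp, MSys S M E ι) = ⟨_, s.im q B hB⟩ := by
  set W : Sp := ⟨fun k => imW (p.fp k) (A k) (p'.fp k), S.lim⟩ with hW
  set q : Pj W S :=
    { π := fun k => (imP (p.fp k) (A k) (p'.fp k)).π
      law := fun k => (imP (p.fp k) (A k) (p'.fp k)).law
      hZ := fun k => (imP (p.fp k) (A k) (p'.fp k)).hZ
      hn := fun _ => rfl } with hq
  set B : ∀ k, (W.F k).Ω → Prop := fun k => imB (p.fp k) (A k) (p'.fp k) (A' k) with hB
  have h1 : ∀ k, T.pr A k * T'.pr A' k ≤ W.pr B k := by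
    intro k
    have h2 : W.pr B k = nz ((T.F k).pb (A k)) * nz ((T'.F k).pb (A' k)) := imB_pb (p.fp k) (A k) (p'.fp k) (A' k)
    rw [h2]
    have h3 : ∀ x : ℝ, 0 ≤ x → x ≤ nz x := by
      intro x hx
      unfold nz
      split_ifs with h4
      · rw [h4]
        exact zero_le_one
      · exact le_rfl
    exact mul_le_mul (h3 _ (pr_nonneg A k)) (h3 _ (pr_nonneg A' k)) (pr_nonneg A' k) (nz_pos (pr_nonneg A k)).le
  have h2 : 0 < ul (W.pr B) := by
    have h3 : ul (fun k => T.pr A k * T'.pr A' k) = ul (T.pr A) * ul (T'.pr A') := ul_mul (UB_pr A) (UB_pr A')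
    have h4 : UB fun k => T.pr A k * T'.pr A' k := (UB_pr A).mul (UB_pr A')
    have h5 := ul_mono h4 (UB_pr B) (Eventually.of_forall h1)
    rw [h3] at h5
    exact (mul_pos hA hA').trans_le h5
  refine ⟨W, q, B, h2, fun s => ?_⟩
  refine sig_mk (fun k => (S.F k).Ω) (fun k => (S.F k).ft) (fun k => ((Sp.im p' A').F k).μ)
    (fun k => ((Sp.im q B).F k).μ) (fun k => ((Sp.im p' A').F k).nn) (fun k => ((Sp.im q B).F k).nn)
    (fun k => ((Sp.im p' A').F k).ms) (fun k => ((Sp.im q B).F k).ms) (fun k => (S.F k).Z) (fun k => (S.F k).Z)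
    (fun k => (S.F k).n) (fun k => (S.F k).n) (fun k => (S.F k).pos) (fun k => (S.F k).pos) S.lim S.lim
    (funext fun k => (imW_law (p.fp k) (A k) (p'.fp k) (A' k)).symm) rfl rfl _ _ rfl fun i => rfl

end

end Pool.Agent.Helper81.CPY
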