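import Pool.Agent.Helper81.CPY.Ind

/-! AMALGAMS OVER A LITERAL VARIABLE: two extensions `W` and `R` of a space, independent given a literal variable `C` of
the space and the base. With `R` the space of a label: a copy of the label given `C`. -/

set_option autoImplicit false

namespace Pool.Agent.Helper81.CPY

open Finset Filter Topology Matrix Pool.Agent.Helper69.RK Pool.Agent.Helper31.EC Pool.Agent.Helper31.EC.Sp
open Pool.Agent.Helper40.EL Pool.Agent.Helper84.MT

noncomputable section

variable {S W R : Sp} {α : ℕ → Type}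

/-- the amalgam of two extensions of `S` over the literal variable `C` of `S` and the base -/
def amv (p : Pj W S) (q : Pj R S) (C : ∀ k, (S.F k).Ω → α k) : AmD W R where
  α := fun k => α k × Quotient (S.F k).Z
  f := fun k ω => (C k (p.π k ω), Quotient.mk (S.F k).Z (p.π k ω))
  g := fun k ω => (C k (q.π k ω), Quotient.mk (S.F k).Z (q.π k ω))
  law := by
    intro k a
    have h1 := ms_push (p.π k) (W.F k).μ (fun ω => (C k ω, Quotient.mk (S.F k).Z ω)) a
    have h2 := ms_push (q.π k) (R.F k).μ (fun ω => (C k ω, Quotient.mk (S.F k).Z ω)) a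
    rw [p.law k] at h1
    rw [q.law k] at h2
    exact h1.trans h2.symm
  Zr := fun k => Setoid.ker Prod.snd
  hZ1 := by
    intro k ω ω' h h'
    rw [p.hZ k ω ω' h h']
    exact (Quotient.eq (r := (S.F k).Z)).symm
  hZ2 := by
    intro k ω ω' h h'
    rw [q.hZ k ω ω' h h']
    exact (Quotient.eq (r := (S.F k).Z)).symm
  hn := fun k => (p.hn k).trans (q.hn k).symm

section
variable (p : Pj W S) (q : Pj R S) (C : ∀ k, (S.F k).Ω → α k)

theorem amv_eq (k : ℕ) (w : ((amv p q C).sp.F k).Ω) (h : ((amv p q C).sp.F k).μ w ≠ 0) :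
    C k (p.π k w.1) = C k (q.π k w.2) := by
  have h1 : (C k (p.π k w.1), Quotient.mk (S.F k).Z (p.π k w.1)) = (C k (q.π k w.2),
    Quotient.mk (S.F k).Z (q.π k w.2)) := ((amv p q C).supp k w h).1
  exact congrArg Prod.fst h1

theorem amv_base (k : ℕ) (w : ((amv p q C).sp.F k).Ω) (h : ((amv p q C).sp.F k).μ w ≠ 0) :
    (S.F k).Z (p.π k w.1) (q.π k w.2) := by
  have h1 : (C k (p.π k w.1), Quotient.mk (S.F k).Z (p.π k w.1)) = (C k (q.π k w.2),
    Quotient.mk (S.F k).Z (q.π k w.2)) := ((amv p q C).supp k w h).1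
  exact (Quotient.eq (r := (S.F k).Z)).mp (congrArg Prod.snd h1)

theorem amv_supp (k : ℕ) (w : ((amv p q C).sp.F k).Ω) (h : ((amv p q C).sp.F k).μ w ≠ 0) :
    (W.F k).μ w.1 ≠ 0 ∧ (R.F k).μ w.2 ≠ 0 := ((amv p q C).supp k w h).2

/-- finite amalgam -/
def amvF (k : ℕ) : FAm (W.F k) (R.F k) where
  α := (amv p q C).α k
  f := (amv p q C).f k
  g := (amv p q C).g k
  law := (amv p q C).law k
  Zr := (amv p q C).Zr k
  hZ1 := (amv p q C).hZ1 k
  hZ2 := (amv p q C).hZ2 k

/-- INDEPENDENCE GIVEN `C` and the base -/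
theorem amv_indep (k : ℕ) (x : FL (W.F k)) (y : FL (R.F k)) :
    I (((amv p q C).p1.fp k).map x) (((amv p q C).p2.fp k).map y)
      (((amv p q C).p1.fp k).map ((p.fp k).map (fc (Setoid.ker (C k))))) = 0 := by
  have h1 := (amvF p q C k).indep x y
  have e1 : (fc (Setoid.ker (amvF p q C k).f) : FL (W.F k)) = (p.fp k).map (fc (Setoid.ker (C k))) := by
    rw [FPj.map_fc]
    apply le_antisymm
    · apply fc_le
      intro ω ω' a b hZ hC
      have h2 : C k (p.π k ω) = C k (p.π k ω') := hC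
      have h3 : Quotient.mk (S.F k).Z (p.π k ω) = Quotient.mk (S.F k).Z (p.π k ω') :=
        Quotient.sound ((p.hZ k ω ω' a b).mp hZ)
      show (C k (p.π k ω), Quotient.mk (S.F k).Z (p.π k ω)) = (C k (p.π k ω'), Quotient.mk (S.F k).Z (p.π k ω'))
      rw [h2, h3]
    · apply fc_mono
      intro ω ω' h
      have h2 : (C k (p.π k ω), Quotient.mk (S.F k).Z (p.π k ω)) = (C k (p.π k ω'),
        Quotient.mk (S.F k).Z (p.π k ω')) := h
      show C k (p.π k ω) = C k (p.π k ω')
      exact congrArg Prod.fst h2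
  rw [e1] at h1
  exact h1

/-- everything of the old space which is known to `C` literally is common -/
theorem amv_common (k : ℕ) (A : Setoid (S.F k).Ω) (h0 : ∀ ω ω', (S.F k).μ ω ≠ 0 →
    (S.F k).μ ω' ≠ 0 → (S.F k).Z ω ω' → C k ω = C k ω' → A ω ω') :
    ((amv p q C).p1.fp k).map ((p.fp k).map (fc A)) = ((amv p q C).p2.fp k).map ((q.fp k).map (fc A)) := by
  have h1 : ∀ w, ((amv p q C).sp.F k).μ w ≠ 0 → A (p.π k w.1) (q.π k w.2) := fun w h =>
    h0 _ _ (p.supp k _ (amv_supp p q C k w h).1) (q.supp k _ (amv_supp p q C k w h).2) (amv_base p q C k w h)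
      (amv_eq p q C k w h)
  apply le_antisymm
  · apply fc_le
    intro w w' h h' _ e
    have e' : A (q.π k w.2) (q.π k w'.2) := e
    exact A.trans (h1 w h) (A.trans e' (A.symm (h1 w' h')))
  · apply fc_le
    intro w w' h h' _ e
    have e' : A (p.π k w.1) (p.π k w'.1) := e
    exact A.trans (A.symm (h1 w h)) (A.trans e' (h1 w' h'))

theorem amv_commonC (k : ℕ) : ((amv p q C).p1.fp k).map ((p.fp k).map (fc (Setoid.ker (C k)))) =
    ((amv p q C).p2.fp k).map ((q.fp k).map (fc (Setoid.ker (C k)))) :=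
  amv_common p q C k _ fun _ _ _ _ _ h => h

/-- the information of the copy about the old extension is at most the information about `C` -/
theorem amv_info_le (k : ℕ) (x : FL (W.F k)) (y : FL (R.F k)) :
    I (((amv p q C).p1.fp k).map x) (((amv p q C).p2.fp k).map y) ⊥ ≤
      I ((q.fp k).map (fc (Setoid.ker (C k)))) y ⊥ := by
  have h1 := amv_indep p q C k x y
  have h2 : I (((amv p q C).p1.fp k).map x) (((amv p q C).p2.fp k).map y) ⊥ ≤
      I (((amv p q C).p1.fp k).map ((p.fp k).map (fc (Setoid.ker (C k)))) ⊔ ((amv p q C).p1.fp k).map x)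
        (((amv p q C).p2.fp k).map y) ⊥ := I_mono_left (le_sup_right.trans le_sup_left)
  rw [I_chain, sup_bot_eq, h1, add_zero, amv_commonC] at h2
  refine h2.trans (le_of_eq ?_)
  have h3 := ((amv p q C).p2.fp k).I_map ((q.fp k).map (fc (Setoid.ker (C k)))) y ⊥
  rw [FPj.map_bot] at h3
  exact h3

end

/-! ### a copy of a label given a literal variable -/

section
variable (L : Lab S) (C : ∀ k, (S.F k).Ω → α k)

/-- the space with a copy of the space of the label given `C` -/
abbrev cpl : AmD S L.sp := amv (Pj.id S) L.pj C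

/-- FULL: a piece of the old space has as much entropy given the copied label as given the label, up to the leak -/
theorem cpl_full (k : ℕ) (x : FL (S.F k)) : h ((L k).p.map x) (L k).v - (L k).leak x ≤
    h (((cpl L C).p1.fp k).map x) (((cpl L C).p2.fp k).map (L k).v) := by
  have h1 := amv_info_le (Pj.id S) L.pj C k x (L k).v
  have h2 : I ((L.pj.fp k).map (fc (Setoid.ker (C k)))) (L k).v ⊥ ≤ (L k).info := by
    have h3 : I (L k).v ((L k).p.map (fc (Setoid.ker (C k)))) ⊥ ≤ I (L k).v (L k).p.top ⊥ :=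
      I_mono_right (((L k).p.map_le_top _).trans le_sup_left)
    rw [I_comm]
    exact h3
  have h4 := (L k).info_eq_leak x
  have h5 : h (((cpl L C).p1.fp k).map x) (((cpl L C).p2.fp k).map (L k).v) =
      H (((cpl L C).p1.fp k).map x) - I (((cpl L C).p1.fp k).map x) (((cpl L C).p2.fp k).map (L k).v) ⊥ := by
    rw [I_eq, h_bot, sup_bot_eq]
    ring
  have h6 : h ((L k).p.map x) (L k).v = H ((L k).p.map x) - I (L k).v ((L k).p.map x) ⊥ := by
    rw [I_comm, I_eq, h_bot, sup_bot_eq]
    ring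
  rw [h5, h6, FPj.H_map, FPj.H_map]
  linarith

/-- the copied label has the law of the label over everything known to `C` -/
theorem cpl_law (k : ℕ) (A : Setoid (S.F k).Ω) (h0 : ∀ ω ω', (S.F k).μ ω ≠ 0 → (S.F k).μ ω' ≠ 0 →
    (S.F k).Z ω ω' → C k ω = C k ω' → A ω ω') (y z : FL (L.sp.F k)) :
    h (((cpl L C).p2.fp k).map y) (((cpl L C).p2.fp k).map z ⊔ ((cpl L C).p1.fp k).map (fc A)) =
      h y (z ⊔ (L k).p.map (fc A)) := by
  have h1 := amv_common (Pj.id S) L.pj C k A h0
  have h2 : ((Pj.id S).fp k).map (fc A) = fc A := rfl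
  rw [h2] at h1
  rw [h1]
  have e1 : ((cpl L C).p2.fp k).map z ⊔ ((cpl L C).p2.fp k).map ((L.pj.fp k).map (fc A)) =
      ((cpl L C).p2.fp k).map (z ⊔ (L k).p.map (fc A)) := by
    rw [FPj.map_sup]
    rfl
  rw [e1, FPj.h_map]

end

end

end Pool.Agent.Helper81.CPY
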