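import Pool.Agent.Helper81.CPY.Clo

/-! Events of extensions commute with truncations and with finer bases (equalities of pairs (space, system)). -/

set_option autoImplicit false

namespace Pool.Agent.Helper81.CPY

open Finset Filter Topology Matrix Pool.Agent.Helper69.RK Pool.Agent.Helper31.EC Pool.Agent.Helper31.EC.Sp
open Pool.Agent.Helper40.EL Pool.Agent.Helper84.MT

noncomputable section

variable {S T : Sp} {M : ℕ} {E : ℕ → ℕ} {ι κ : Type}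

/-- AN EXTENSION OVER A FINER BASE (and another depth); on the support the finer base of the extension is the finer base
of the space -/
def pjc (p : Pj T S) (W : ∀ k, Setoid (T.F k).Ω) (Z : ∀ k, Setoid (S.F k).Ω) (r : ℝ) (hr : 0 < r)
    (hW : ∀ k ω ω', (T.F k).μ ω ≠ 0 → (T.F k).μ ω' ≠ 0 → (T.F k).Z ω ω' → (W k ω ω' ↔ Z k (p.π k ω) (p.π k ω'))) :
    Pj (T.chg W r hr) (S.chg Z r hr) where
  π := p.π
  law := p.law
  hZ := fun k ω ω' a b => by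
    constructor
    · rintro ⟨c, d⟩
      exact ⟨(hW k ω ω' a b d).1 c, (p.hZ k ω ω' a b).1 d⟩
    · rintro ⟨c, d⟩
      have d' := (p.hZ k ω ω' a b).2 d
      exact ⟨(hW k ω ω' a b d').2 c, d'⟩
  hn := fun k => congrArg (fun n => r * n) (p.hn k)

/-- the pulled base -/
def pjb (p : Pj T S) (Z : ∀ k, Setoid (S.F k).Ω) (r : ℝ) (hr : 0 < r) : Pj (T.chg (p.pb Z) r hr) (S.chg Z r hr) :=
  pjc p (p.pb Z) Z r hr fun _ _ _ _ _ _ => Iff.rfl

theorem pr_chg (W : ∀ k, Setoid (T.F k).Ω) (r : ℝ) (hr : 0 < r) (A : ∀ k, (T.F k).Ω → Prop) :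
    (T.chg W r hr).pr A = T.pr A := rfl

/-- TRUNCATIONS COMMUTE WITH EVENTS OF EXTENSIONS -/
theorem im_trn (s : MSys S M E ι) (p : Pj T S) (A : ∀ k, (T.F k).Ω → Prop) (hA : 0 < ul (T.pr A)) (r : ℝ)
    (h0 : 0 < r) (h1 : r ≤ 1) : (⟨_, (s.im p A hA).trn r h0 h1⟩ : Σ S : Sp, MSys S M E ι) =
      ⟨_, (s.trn r h0 h1).im (pjb p S.tr r h0) A hA⟩ := rfl

/-- FINER BASES COMMUTE WITH EVENTS OF EXTENSIONS -/
theorem im_bas (s : MSys S M E ι) (p : Pj T S) (A : ∀ k, (T.F k).Ω → Prop) (hA : 0 < ul (T.pr A))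
    (Z : ∀ k, Setoid (S.F k).Ω) (h1 : ∀ i, PLe (fun k => fc (Z k)) (fun k => fc ((s.lf i).La k)))
    (h2 : ∀ i, PLe (S := Sp.im p A) (fun k => fc (F := (Sp.im p A).F k) (Z k))
      (fun k => fc (((s.im p A hA).lf i).La k))) :
    (⟨_, (s.im p A hA).bas Z h2⟩ : Σ S : Sp, MSys S M E ι) =
      ⟨_, (s.bas Z h1).im (pjb p Z 1 one_pos) A hA⟩ := rfl

/-- extensions -/
theorem pull_trn (s : MSys S M E ι) (p : Pj T S) (r : ℝ) (h0 : 0 < r) (h1 : r ≤ 1) :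
    (⟨_, (s.pull p).trn r h0 h1⟩ : Σ S : Sp, MSys S M E ι) = ⟨_, (s.trn r h0 h1).pull (pjb p S.tr r h0)⟩ := rfl

end

end Pool.Agent.Helper81.CPY
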