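import Pool.Agent.Helper81.CPY.Ind
import Pool.Agent.Helper87.NSL.Inv
import Pool.Agent.Helper26.MT.Zl
import Pool.Agent.Helper81.MT.Bas

/-! The invariants (Inv1), (Inv2) of NSL*: renaming of the types, extensions, events of extensions, truncations, a finer
base, zooms, fresh copies as new types. -/

set_option autoImplicit false

namespace Pool.Agent.Helper81.CPY

open Finset Filter Topology Matrix Pool.Agent.Helper69.RK Pool.Agent.Helper31.EC Pool.Agent.Helper31.EC.Sp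
open Pool.Agent.Helper40.EL Pool.Agent.Helper84.MT
open Pool.Agent.Helper87.NSL (Inv1 Inv2)
open Pool.Agent.Helper52.SL (cellv_chg)

noncomputable section

variable {S T : Sp} {M : ℕ} {E : ℕ → ℕ} {ι κ : Type} {s : MSys S M E ι} {R : ∀ k, Setoid (S.F k).Ω} {c : ℝ}
  {v v' i : ι}

theorem Inv1_iff : Inv1 s R c v i ↔ NI ((s.lf v).win c) (pof R) ((s.lf i).win c) := Iff.rfl

theorem Inv2_iff : Inv2 s R c v v' ↔ NI ((s.lf v).win c) ((s.lf v').win c) (pof R) := Iff.rfl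

theorem inv2_symm (h : Inv2 s R c v v') : Inv2 s R c v' v := NI.symm (Inv2_iff.1 h)

/-- (Inv1) for a coarser resolution -/
theorem inv1_mono {R' : ∀ k, Setoid (S.F k).Ω} (h : Inv1 s R c v i) (hR : ∀ k, R k ≤ R' k) : Inv1 s R' c v i :=
  NI.mono (Inv1_iff.1 h) (Eventually.of_forall fun _ => le_sup_left)
    (Eventually.of_forall fun k => (fc_mono (hR k)).trans le_sup_left)

/-! ### renaming and adding types -/

theorem inv1_ren (f : κ → ι) (a b : κ) : Inv1 (s.ren f) R c a b ↔ Inv1 s R c (f a) (f b) := Iff.rfl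

theorem inv2_ren (f : κ → ι) (a b : κ) : Inv2 (s.ren f) R c a b ↔ Inv2 s R c (f a) (f b) := Iff.rfl

theorem inv1_union (l : κ → Leaf S s.Q E) : Inv1 (s.union l) R c (Sum.inl v) (Sum.inl i) ↔ Inv1 s R c v i := Iff.rfl

theorem inv2_union (l : κ → Leaf S s.Q E) : Inv2 (s.union l) R c (Sum.inl v) (Sum.inl v') ↔ Inv2 s R c v v' := Iff.rfl

/-! ### extensions -/

theorem inv1_pull (p : Pj T S) : Inv1 (s.pull p) (p.pb R) c v i ↔ Inv1 s R c v i := by
  rw [Inv1_iff, Inv1_iff]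
  have e1 : ((s.pull p).lf v).win c = ((s.lf v).win c).pull p := win_pull p _ c
  have e2 : ((s.pull p).lf i).win c = ((s.lf i).win c).pull p := win_pull p _ c
  have e3 : pof (p.pb R) = (pof R).pull p := (pof_pull p R).symm
  rw [e1, e2, e3]
  exact NI_pull p

theorem inv2_pull (p : Pj T S) : Inv2 (s.pull p) (p.pb R) c v v' ↔ Inv2 s R c v v' := by
  rw [Inv2_iff, Inv2_iff]
  have e1 : ((s.pull p).lf v).win c = ((s.lf v).win c).pull p := win_pull p _ c
  have e2 : ((s.pull p).lf v').win c = ((s.lf v').win c).pull p := win_pull p _ c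
  have e3 : pof (p.pb R) = (pof R).pull p := (pof_pull p R).symm
  rw [e1, e2, e3]
  exact NI_pull p

theorem inv1_im (h : Inv1 s R c v i) (p : Pj T S) (A : ∀ k, (T.F k).Ω → Prop) (hA : 0 < ul (T.pr A)) :
    Inv1 (s.im p A hA) R c v i := NI.im (Inv1_iff.1 h) p A hA

theorem inv2_im (h : Inv2 s R c v v') (p : Pj T S) (A : ∀ k, (T.F k).Ω → Prop) (hA : 0 < ul (T.pr A)) :
    Inv2 (s.im p A hA) R c v v' := NI.im (Inv2_iff.1 h) p A hA

/-! ### truncations -/

theorem win_trn (s : MSys S M E ι) (r : ℝ) (h0 : 0 < r) (h1 : r ≤ 1) (c : ℝ) (i : ι) :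
    ((s.trn r h0 h1).lf i).win c = chP S.tr r h0 ((s.lf i).win (r * c)) := by
  funext k
  have e1 : ((s.lf i).Y.chg S.tr r h0).cellv c k = (s.lf i).Y.cellv (r * c) k := cellv_chg (s.lf i).Y r h0 c k
  exact congrArg (fun f => fc (F := (S.F k).chg ⊤ r h0) ((s.lf i).La k ⊓ Setoid.ker f)) e1

theorem NI_tr {X Y Z : Part S} {r : ℝ} {h0 : 0 < r} :
    NI (chP S.tr r h0 X) (chP S.tr r h0 Y) (chP S.tr r h0 Z) ↔ NI X Y Z := by
  rw [NI_chP]
  have e1 : (fun k => Z k ⊔ fc (S.tr k)) = Z := by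
    funext k
    have h2 : (fc (S.tr k) : FL (S.F k)) = ⊥ := fc_top
    rw [h2, sup_bot_eq]
  rw [e1]

theorem inv1_trn {r : ℝ} {h0 : 0 < r} {h1 : r ≤ 1} {R : ∀ k, Setoid (S.F k).Ω} :
    Inv1 (s.trn r h0 h1) R c v i ↔ Inv1 s R (r * c) v i := by
  rw [Inv1_iff, Inv1_iff, win_trn, win_trn]
  exact NI_tr (X := (s.lf v).win (r * c)) (Y := pof R) (Z := (s.lf i).win (r * c))

theorem inv2_trn {r : ℝ} {h0 : 0 < r} {h1 : r ≤ 1} {R : ∀ k, Setoid (S.F k).Ω} :
    Inv2 (s.trn r h0 h1) R c v v' ↔ Inv2 s R (r * c) v v' := by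
  rw [Inv2_iff, Inv2_iff, win_trn, win_trn]
  exact NI_tr (X := (s.lf v).win (r * c)) (Y := (s.lf v').win (r * c)) (Z := pof R)

/-! ### a finer base -/

theorem win_bas (s : MSys S M E ι) (Z : ∀ k, Setoid (S.F k).Ω)
    (hZ : ∀ i, PLe (fun k => fc (Z k)) (fun k => fc ((s.lf i).La k))) (c : ℝ) (i : ι) :
    ((s.bas Z hZ).lf i).win c = chP Z 1 one_pos ((s.lf i).win c) := by
  funext k
  exact congrArg (fun f => fc (F := (S.F k).chg (Z k) 1 one_pos) ((s.lf i).La k ⊓ Setoid.ker f))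
    (cellv_bas Z (s.lf i).Y c k)

theorem inv1_bas (h : Inv1 s R c v i) (Z : ∀ k, Setoid (S.F k).Ω)
    (hZ : ∀ i, PLe (fun k => fc (Z k)) (fun k => fc ((s.lf i).La k))) : Inv1 (s.bas Z hZ) R c v i := by
  rw [Inv1_iff, win_bas, win_bas]
  refine NI.chP (Inv1_iff.1 h) Z 1 one_pos ((hZ i).trans (PLe_of_le fun k => ?_))
  show fc ((s.lf i).La k) ≤ fc ((s.lf i).La k) ⊔ fc (Setoid.ker ((s.lf i).Y.cellv c k))
  exact le_sup_left

theorem inv2_bas (h : Inv2 s R c v v') (Z : ∀ k, Setoid (S.F k).Ω)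
    (hZ : ∀ i, PLe (fun k => fc (Z k)) (fun k => fc ((s.lf i).La k))) (hR : PLe (fun k => fc (Z k)) (pof R)) :
    Inv2 (s.bas Z hZ) R c v v' := by
  rw [Inv2_iff, win_bas, win_bas]
  exact NI.chP (Inv2_iff.1 h) Z 1 one_pos hR

/-! ### zooms -/

theorem nul_leak_mono {l : Lab S} {A B : Part S} (h : PLe A B) (hl : Nul S (fun k => (l k).leak (A k))) :
    Nul S (fun k => (l k).leak (B k)) :=
  (Nul.add hl h).of_le (Eventually.of_forall fun k => FLab.leak_nonneg _ _)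
    (Eventually.of_forall fun k => (l k).leak_le_leak (B k) (A k))

/-- the resolution in the space of a label -/
def upR (l : Lab S) (c : ℝ) (hc : 0 < c) (R : ∀ k, Setoid (S.F k).Ω) : ∀ k, Setoid ((l.ovr c hc).F k).Ω :=
  fun k => Setoid.comap (l k).p.π (R k)

theorem upR_pof (l : Lab S) (c : ℝ) (hc : 0 < c) (R : ∀ k, Setoid (S.F k).Ω) :
    (pof (upR l c hc R) : Part (l.ovr c hc)) = l.up c hc (pof R) := rfl

/-- (Inv1) IN A ZOOM -/
theorem inv1_zoom (Z : ZM s) {b : ℝ} (hb : 0 ≤ b) (h : Inv1 s R (Z.c + Z.e * b) v i) :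
    Inv1 Z.sys (upR Z.l Z.e Z.e_pos R) b v i := by
  have h0 : Nul S (fun k => (Z.l k).leak ((s.lf i).win (Z.c + Z.e * b) k)) :=
    nul_leak_mono ((s.lf i).win_mono (Z.c_le hb)) (Z.dm (some i))
  have h1 : NI (Z.upz ((s.lf v).win (Z.c + Z.e * b))) (Z.upz (pof R)) (Z.upz ((s.lf i).win (Z.c + Z.e * b))) :=
    NI.up (Inv1_iff.1 h) Z.l Z.e Z.e_pos h0
  exact h1.rates (Z.cnd_up hb (some v)) (PLe.refl _) (Z.up_cnd b (some i)) (Z.cnd_up hb (some i))

/-- (Inv2) IN A ZOOM -/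
theorem inv2_zoom (Z : ZM s) (hR : ∀ k, R k ≤ Setoid.ker (s.Q.cellv 1 k)) {b : ℝ} (hb : 0 ≤ b)
    (h : Inv2 s R (Z.c + Z.e * b) v v') : Inv2 Z.sys (upR Z.l Z.e Z.e_pos R) b v v' := by
  have h0 : Nul S (fun k => (Z.l k).leak (pof R k)) :=
    nul_leak_mono (PLe_of_le fun k => fc_mono (hR k)) (Z.dm none)
  have h1 : NI (Z.upz ((s.lf v).win (Z.c + Z.e * b))) (Z.upz ((s.lf v').win (Z.c + Z.e * b))) (Z.upz (pof R)) :=
    NI.up (Inv2_iff.1 h) Z.l Z.e Z.e_pos h0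
  exact h1.rates (Z.cnd_up hb (some v)) (Z.cnd_up hb (some v')) (PLe.refl _) (PLe.refl _)

/-! ### fresh copies -/

/-- the class of a resolution, as a literal variable -/
def rsC (R : ∀ k, Setoid (S.F k).Ω) : ∀ k, (S.F k).Ω → Quotient (R k) := fun k ω => Quotient.mk (R k) ω

theorem ker_rsC (R : ∀ k, Setoid (S.F k).Ω) (k : ℕ) : Setoid.ker (rsC R k) = R k := by
  ext ω ω'
  exact Quotient.eq (r := R k)

theorem Dtm_rsC {Q : S.VV M} (hR : ∀ k, R k ≤ Setoid.ker (Q.cellv 1 k)) : Dtm Q (rsC R) :=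
  Eventually.of_forall fun k ω ω' _ _ _ h => hR k (Quotient.exact h)

/-- THE SYSTEM WITH FRESH COPIES OF THE TYPES `l` given the resolution `R` (and the base) AS NEW TYPES -/
def cpR (s : MSys S M E ι) (R : ∀ k, Setoid (S.F k).Ω) (hR : ∀ k, R k ≤ Setoid.ker (s.Q.cellv 1 k))
    (l : κ → Leaf S s.Q E) : MSys (cpd (rsC R)).sp M E (ι ⊕ κ) := s.cpy (rsC R) (Dtm_rsC hR) l

/-- the old resolution in the new space -/
abbrev cR (R : ∀ k, Setoid (S.F k).Ω) : ∀ k, Setoid ((cpd (rsC R)).sp.F k).Ω := (cpd (rsC R)).p1.pb R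

section
variable (hR : ∀ k, R k ≤ Setoid.ker (s.Q.cellv 1 k)) (l : κ → Leaf S s.Q E)

include hR in
theorem cR_le (k : ℕ) : cR R k ≤ Setoid.ker ((cpR s R hR l).Q.cellv 1 k) := by
  intro w w' h
  have h1 : s.Q.cellv 1 k w.1 = s.Q.cellv 1 k w'.1 := hR k h
  have h2 : (cpR s R hR l).Q.cellv 1 k = fun w => s.Q.cellv 1 k w.1 := vv_cellv (cpd (rsC R)).p1 s.Q 1 k
  show (cpR s R hR l).Q.cellv 1 k w = (cpR s R hR l).Q.cellv 1 k w'
  rw [h2]
  exact h1

/-- the old types keep (Inv1) -/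
theorem inv1_cpR : Inv1 (cpR s R hR l) (cR R) c (Sum.inl v) (Sum.inl i) ↔ Inv1 s R c v i :=
  inv1_pull (cpd (rsC R)).p1

/-- the old types keep (Inv2) -/
theorem inv2_cpR : Inv2 (cpR s R hR l) (cR R) c (Sum.inl v) (Sum.inl v') ↔ Inv2 s R c v v' :=
  inv2_pull (cpd (rsC R)).p1

/-- everything which is known to `R` is common -/
theorem pull_R : (pof R).pull (cpd (rsC R)).p1 = (pof R).pull (cpd (rsC R)).p2 := by
  funext k
  exact cpd_common (rsC R) k (R k) fun ω ω' _ _ _ h => Quotient.exact h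

/-- the old space and the copy are independent given `R` -/
theorem NI_cpR (X Y : Part S) : NI (X.pull (cpd (rsC R)).p1) (Y.pull (cpd (rsC R)).p2) (pof (cR R)) := by
  refine NI_of_zero (Eventually.of_forall fun k => ?_)
  have h1 := cpd_indep (rsC R) k (X k) (Y k)
  rw [ker_rsC] at h1
  exact h1

/-- more: given `R` and any part of the old space -/
theorem NI_cpR_of (X Y Z : Part S) (hZ : ∀ k, fc (R k) ≤ Z k) :
    NI (X.pull (cpd (rsC R)).p1) (Y.pull (cpd (rsC R)).p2) (Z.pull (cpd (rsC R)).p1) := by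
  refine NI_of_zero (Eventually.of_forall fun k => ?_)
  have h1 := cpd_indep_of (rsC R) k (X k) (Y k) (Z k) (by rw [ker_rsC]; exact hZ k)
  exact h1

/-- (Inv2) HOLDS for every old type and every fresh copy -/
theorem inv2_new (v : ι) (j : κ) : Inv2 (cpR s R hR l) (cR R) c (Sum.inl v) (Sum.inr j) := by
  rw [Inv2_iff]
  have e1 : ((cpR s R hR l).lf (Sum.inl v)).win c = ((s.lf v).win c).pull (cpd (rsC R)).p1 :=
    s.cpy_cnd_old (rsC R) (Dtm_rsC hR) l c v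
  have e2 : ((cpR s R hR l).lf (Sum.inr j)).win c = ((l j).win c).pull (cpd (rsC R)).p2 :=
    s.cpy_cnd_new (rsC R) (Dtm_rsC hR) l c j
  rw [e1, e2]
  exact NI_cpR _ _

/-- the law of (copies, resolution) is the old law: independences of old types and of the resolution hold for the
copies -/
theorem NI_law {X Y Z : Part S} : NI (X.pull (cpd (rsC R)).p2) (Y.pull (cpd (rsC R)).p2) (Z.pull (cpd (rsC R)).p2) ↔
    NI X Y Z := NI_pull _

/-- (Inv1) for a copied pair of types -/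
theorem inv1_copies (a b : κ) (h : NI ((l a).win c) (pof R) ((l b).win c)) :
    Inv1 (cpR s R hR l) (cR R) c (Sum.inr a) (Sum.inr b) := by
  rw [Inv1_iff]
  have e1 : ∀ j : κ, ((cpR s R hR l).lf (Sum.inr j)).win c = ((l j).win c).pull (cpd (rsC R)).p2 := fun j =>
    s.cpy_cnd_new (rsC R) (Dtm_rsC hR) l c j
  have e2 : pof (cR R) = (pof R).pull (cpd (rsC R)).p2 := pull_R
  rw [e1, e1, e2]
  exact (NI_pull _).2 h

/-- (Inv2) for a copied pair of types -/
theorem inv2_copies (a b : κ) (h : NI ((l a).win c) ((l b).win c) (pof R)) :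
    Inv2 (cpR s R hR l) (cR R) c (Sum.inr a) (Sum.inr b) := by
  rw [Inv2_iff]
  have e1 : ∀ j : κ, ((cpR s R hR l).lf (Sum.inr j)).win c = ((l j).win c).pull (cpd (rsC R)).p2 := fun j =>
    s.cpy_cnd_new (rsC R) (Dtm_rsC hR) l c j
  have e2 : pof (cR R) = (pof R).pull (cpd (rsC R)).p2 := pull_R
  rw [e1, e1, e2]
  exact (NI_pull _).2 h

end

/-! ### types indexed by natural numbers -/

/-- the copy is the type `0`, the old types are shifted -/
def shN : ℕ → ℕ ⊕ Unit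
  | 0 => Sum.inr ()
  | n + 1 => Sum.inl n

theorem shN_surj : Function.Surjective shN := by
  rintro (n | u)
  · exact ⟨n + 1, rfl⟩
  · exact ⟨0, rfl⟩

/-- the copy is the type `none` -/
def shO : Option ι → ι ⊕ Unit
  | none => Sum.inr ()
  | some i => Sum.inl i

theorem shO_surj : Function.Surjective (shO (ι := ι)) := by
  rintro (n | u)
  · exact ⟨some n, rfl⟩
  · exact ⟨none, rfl⟩

/-- a fresh copy of the leaf `l`, types indexed by natural numbers -/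
def cpN (s : MSys S M E ℕ) (R : ∀ k, Setoid (S.F k).Ω) (hR : ∀ k, R k ≤ Setoid.ker (s.Q.cellv 1 k))
    (l : Leaf S s.Q E) : MSys (cpd (rsC R)).sp M E ℕ := (cpR s R hR fun _ : Unit => l).ren shN

/-- a fresh copy of the leaf `l` -/
def cpO (s : MSys S M E ι) (R : ∀ k, Setoid (S.F k).Ω) (hR : ∀ k, R k ≤ Setoid.ker (s.Q.cellv 1 k))
    (l : Leaf S s.Q E) : MSys (cpd (rsC R)).sp M E (Option ι) := (cpR s R hR fun _ : Unit => l).ren shO

section
variable {s : MSys S M E ℕ} (hR : ∀ k, R k ≤ Setoid.ker (s.Q.cellv 1 k)) (l : Leaf S s.Q E)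

theorem cpN_cnd_none (c : ℝ) : (cpN s R hR l).cnd c none = (pcd s.Q).pull (cpd (rsC R)).p1 :=
  s.cpy_cnd_none (rsC R) (Dtm_rsC hR) (fun _ : Unit => l) c

theorem cpN_cnd_succ (c : ℝ) (n : ℕ) : (cpN s R hR l).cnd c (some (n + 1)) =
    ((s.lf n).win c).pull (cpd (rsC R)).p1 := s.cpy_cnd_old (rsC R) (Dtm_rsC hR) (fun _ : Unit => l) c n

theorem cpN_cnd_zero (c : ℝ) : (cpN s R hR l).cnd c (some 0) = (l.win c).pull (cpd (rsC R)).p2 :=
  s.cpy_cnd_new (rsC R) (Dtm_rsC hR) (fun _ : Unit => l) c ()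

theorem inv2_cpN (v : ℕ) : Inv2 (cpN s R hR l) (cR R) c (v + 1) 0 := inv2_new hR (fun _ : Unit => l) v ()

theorem inv1_cpN (v i : ℕ) : Inv1 (cpN s R hR l) (cR R) c (v + 1) (i + 1) ↔ Inv1 s R c v i :=
  inv1_cpR hR (fun _ : Unit => l)

theorem inv2_cpN_old (v v' : ℕ) : Inv2 (cpN s R hR l) (cR R) c (v + 1) (v' + 1) ↔ Inv2 s R c v v' :=
  inv2_cpR hR (fun _ : Unit => l)

end

end

end Pool.Agent.Helper81.CPY
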