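import Pool.Agent.Helper81.CPY.Evn
import Pool.Agent.Helper81.CPY.Imim
import Pool.Agent.Helper36.AM.St
import Pool.Agent.Helper31.EC.Uns

/-! Fresh copies and zooms over literal labels: the copy of the zoom is the zoom of the copy, in the pulled frame. -/

set_option autoImplicit false

namespace Pool.Agent.Helper81.CPY

open Finset Filter Topology Matrix Pool.Agent.Helper69.RK Pool.Agent.Helper31.EC Pool.Agent.Helper31.EC.Sp
open Pool.Agent.Helper40.EL Pool.Agent.Helper84.MT Pool.Agent.Helper36.AM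

noncomputable section

variable {S T : Sp} {M : ℕ} {E E' : ℕ → ℕ} {ι κ : Type}

/-! ### typical events -/

theorem mass_pull {Ω Ω' : Type} [Fintype Ω] [Fintype Ω'] (π : Ω' → Ω) (μ' : Ω' → ℝ) (A : Ω → Prop) :
    mass (res μ' fun x => A (π x)) = mass (res (push π μ') A) := by
  classical
  have h1 : ∀ (Ω : Type) [Fintype Ω] (μ : Ω → ℝ) (A : Ω → Prop), mass (res μ A) = ms μ A True := by
    intro Ω _ μ A
    unfold mass ms res
    refine Finset.sum_congr rfl fun ω _ => ?_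
    by_cases h : A ω
    · rw [if_pos h, e1_ind_pos (eq_true h), one_mul]
    · rw [if_neg h, e1_ind_neg (fun h2 => h (of_eq_true h2)), zero_mul]
  rw [h1, h1]
  exact ms_push π μ' A True

theorem typ_pull (p : Pj T S) {A : ∀ k, (S.F k).Ω → Prop} (h : Typ A) : Typ (S := T) fun k ω => A k (p.π k ω) := by
  unfold Typ at h ⊢
  refine h.congr fun k => ?_
  have h1 := mass_pull (p.π k) (T.F k).μ (fun ω => ¬ A k ω)
  rw [p.law k] at h1
  exact h1.symm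

/-! ### transport of systems -/

theorem exists_mk (Ω : ℕ → Type) (ft : ∀ k, Fintype (Ω k)) (μ μ' : ∀ k, Ω k → ℝ) (nn : ∀ k ω, 0 ≤ μ k ω)
    (nn' : ∀ k ω, 0 ≤ μ' k ω) (m1 : ∀ k, mass (μ k) = 1) (m1' : ∀ k, mass (μ' k) = 1) (Z : ∀ k, Setoid (Ω k))
    (n : ℕ → ℝ) (pos : ∀ k, 0 < n k) (lim : Tendsto n UF atTop) (hμ : μ = μ')
    (s : MSys (spOf Ω ft μ nn m1 Z n pos lim) M E ι) : ∃ t : MSys (spOf Ω ft μ' nn' m1' Z n pos lim) M E ι,
    (⟨_, t⟩ : Σ S : Sp, MSys S M E ι) = ⟨_, s⟩ ∧ t.Q.v = s.Q.v ∧ ∀ i, (raw (t.lf i) : LRaw Ω M) = raw (s.lf i) := by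
  subst hμ
  exact ⟨s, rfl, rfl, fun _ => rfl⟩

/-- a system on the copy of a space with a finer base, as a system on the copy seen over the finer base -/
theorem exists_cpdt {α : ℕ → Type} (C : ∀ k, (S.F k).Ω → α k) (Z' : ∀ k, Setoid (S.F k).Ω) (r : ℝ) (hr : 0 < r)
    (hZ : LitC C Z') (s : MSys (cpd (S := S.chg Z' r hr) C).sp M E ι) :
    ∃ t : MSys ((cpd C).sp.chg ((cpd C).p1.pb Z') r hr) M E ι, (⟨_, t⟩ : Σ S : Sp, MSys S M E ι) = ⟨_, s⟩ ∧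
      (t.Q.v : ∀ k, (S.F k).Ω × (S.F k).Ω → Fin M → ℝ) = s.Q.v ∧
      ∀ i, (raw (t.lf i) : LRaw (fun k => (S.F k).Ω × (S.F k).Ω) M) = raw (s.lf i) :=
  exists_mk (fun k => (S.F k).Ω × (S.F k).Ω) (fun _ => inferInstance)
    (fun k => ((cpd (S := S.chg Z' r hr) C).sp.F k).μ) (fun k => ((cpd C).sp.F k).μ)
    (fun k => ((cpd (S := S.chg Z' r hr) C).sp.F k).nn) (fun k => ((cpd C).sp.F k).nn)
    (fun k => ((cpd (S := S.chg Z' r hr) C).sp.F k).ms) (fun k => ((cpd C).sp.F k).ms)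
    (fun k => ((cpd (S := S.chg Z' r hr) C).sp.F k).Z) (fun k => ((cpd (S := S.chg Z' r hr) C).sp.F k).n)
    (fun k => ((cpd (S := S.chg Z' r hr) C).sp.F k).pos) (cpd (S := S.chg Z' r hr) C).sp.lim
    (funext (cpd_chg_mu C Z' r hr hZ)) s

/-! ### frames -/

theorem pj_dl (p : Pj T S) (r : ℝ) (k : ℕ) : T.dl r k = S.dl r k := by
  unfold Sp.dl
  rw [p.hn k]

/-- the frame of a literal label pulled to an extension; the label on the extension may be any partition which is the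
pulled one on the support -/
def frmP (p : Pj T S) {W : ∀ k, Setoid (T.F k).Ω} {Z : ∀ k, Setoid (S.F k).Ω}
    (hW : ∀ k ω ω', (T.F k).μ ω ≠ 0 → (T.F k).μ ω' ≠ 0 → (T.F k).Z ω ω' → (W k ω ω' ↔ Z k (p.π k ω) (p.π k ω')))
    {Q : S.VV M} {La : Fin M → ℝ} (f : Frm Q (Lab.ofZ Z) La) : Frm (p.vv Q) (Lab.ofZ W) La where
  X := p.vv f.X
  P := fun k ω => f.P k (p.π k ω)
  tri := fun k ω => f.tri k (p.π k ω)
  red := fun k ω => f.red k (p.π k ω)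
  fn := by
    filter_upwards [f.fn] with k hk ω ω' a b c d
    exact hk _ _ (p.supp k ω a) (p.supp k ω' b) ((p.hZ k ω ω' a b).1 c) ((hW k ω ω' a b c).1 d)
  bd := by
    obtain ⟨K, hK, h⟩ := f.bd
    refine ⟨K, p.sub hK, ?_⟩
    filter_upwards [h] with k hk ω hω
    exact hk _ (p.supp k ω hω)
  pt := by
    obtain ⟨K, hK, h⟩ := f.pt
    refine ⟨K, p.sub hK, ?_⟩
    filter_upwards [h] with k hk ω hω j
    have h1 := hk (p.π k ω) (p.supp k ω hω) j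
    simp_rw [pj_dl p]
    exact h1

/-! ### raw data -/

/-- the leaf relation in terms of the data -/
def LfrR {Ω : ℕ → Type} (ρ ρ' : LRaw Ω M) (dc : ℕ → ℝ) (dLa : Fin M → ℕ → ℝ)
    (P : ∀ k, Ω k → Fin M → MvPolynomial (Fin M) ℝ) (Ty : (∀ k, Ω k → Prop) → Prop) : Prop :=
  ∃ (h : ρ'.e = ρ.e) (o : ∀ k, Ω k → Fin ρ.e → ℝ),
    (∀ k ω m, ρ.Y k ω m = o k ω m + dc k * ρ'.Y k ω (Fin.cast h.symm m)) ∧
    Ty (fun k ω => ∀ (y : Fin ρ.e → ℝ) j, ρ.F k ω (fun m => o k ω m + dc k * y m) j =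
      MvPolynomial.eval (fun a => dLa a k * ρ'.F k ω (fun m => y (Fin.cast h m)) a) (P k ω j) +
        dLa j k * ρ'.F k ω (fun m => y (Fin.cast h m)) j)

theorem lfr_iff {Q : S.VV M} (lf : Leaf S Q E) {Z : ∀ k, Setoid (S.F k).Ω} {La : Fin M → ℝ}
    (f : Frm Q (Lab.ofZ Z) La) (c e : ℝ) (he : 0 < e) {Q' : ((Lab.ofZ Z).ovr e he).VV M}
    (t : Leaf ((Lab.ofZ Z).ovr e he) Q' E') : Lfr lf f c e he t ↔
      LfrR (Ω := fun k => (S.F k).Ω) (raw lf) (raw (S := (Lab.ofZ Z).ovr e he) t) (S.dl c) (fun a => S.dl (La a)) f.P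
        (Typ (S := S)) := Iff.rfl

/-- the window in terms of the data -/
def winR {Ω : ℕ → Type} (ρ : LRaw Ω M) (d : ℝ) (k : ℕ) : Setoid (Ω k) :=
  ρ.La k ⊓ Setoid.ker fun ω i => ⌊ρ.Y k ω i / d⌋

theorem win_raw {Q : S.VV M} (l : Leaf S Q E) (c : ℝ) (k : ℕ) : l.win c k = fc (winR (raw l) (S.dl c k) k) := rfl

/-- pulled data -/
def LRaw.pull {Ω Ω' : ℕ → Type} (π : ∀ k, Ω' k → Ω k) (ρ : LRaw Ω M) : LRaw Ω' M where
  e := ρ.e
  La := fun k => Setoid.comap (π k) (ρ.La k)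
  Y := fun k ω => ρ.Y k (π k ω)
  F := fun k ω => ρ.F k (π k ω)
  al := fun k ω => ρ.al k (π k ω)

theorem raw_pull (p : Pj T S) {Q : S.VV M} (l : Leaf S Q E) : raw (l.pull p) = (raw l).pull p.π := rfl

theorem LfrR.pull (p : Pj T S) {ρ ρ' : LRaw (fun k => (S.F k).Ω) M} {dc : ℕ → ℝ} {dLa : Fin M → ℕ → ℝ}
    {P : ∀ k, (S.F k).Ω → Fin M → MvPolynomial (Fin M) ℝ} (h : LfrR ρ ρ' dc dLa P (Typ (S := S)))
    (P' : ∀ k, (T.F k).Ω → Fin M → MvPolynomial (Fin M) ℝ)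
    (hP : ∀ᶠ k in UF, ∀ ω, (T.F k).μ ω ≠ 0 → P' k ω = P k (p.π k ω)) :
    LfrR (ρ.pull p.π : LRaw (fun k => (T.F k).Ω) M) (ρ'.pull p.π) dc dLa P' (Typ (S := T)) := by
  obtain ⟨h1, o, h2, h3⟩ := h
  refine ⟨h1, fun k ω => o k (p.π k ω), fun k ω m => h2 k (p.π k ω) m, ?_⟩
  refine Typ.mono (typ_pull p h3) ?_
  filter_upwards [hP] with k hk ω hω h y j
  rw [hk ω hω]
  exact h y j

/-! ### extensions over labels -/

section pullz

variable (p : Pj T S) {W : ∀ k, Setoid (T.F k).Ω} {Z : ∀ k, Setoid (S.F k).Ω}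
    (hW : ∀ k ω ω', (T.F k).μ ω ≠ 0 → (T.F k).μ ω' ≠ 0 → (T.F k).Z ω ω' → (W k ω ω' ↔ Z k (p.π k ω) (p.π k ω')))
    (e : ℝ) (he : 0 < e)

/-- the extension over the label -/
def pjz : Pj ((Lab.ofZ W).ovr e he) ((Lab.ofZ Z).ovr e he) := pjc p W Z e he hW

theorem up_pull (A : Part S) : ((Lab.ofZ Z).up e he A).pull (pjz p hW e he) = (Lab.ofZ W).up e he (A.pull p) := by
  funext k
  show ((pjz p hW e he).fp k).map ((frb (S.F k) (Z k) e he).map ((FLab.triv (S.F k)).p.map (A k))) =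
    (frb (T.F k) (W k) e he).map ((FLab.triv (T.F k)).p.map ((p.fp k).map (A k)))
  induction A k using fc_ind
  rfl

/-- window relations pulled -/
theorem win_pullz {A : Part S} {B : Part ((Lab.ofZ Z).ovr e he)}
    (h : PLe B ((Lab.ofZ Z).up e he A) ∧ PLe ((Lab.ofZ Z).up e he A) B) :
    PLe (B.pull (pjz p hW e he)) ((Lab.ofZ W).up e he (A.pull p)) ∧
      PLe ((Lab.ofZ W).up e he (A.pull p)) (B.pull (pjz p hW e he)) := by
  rw [← up_pull p hW e he A]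
  exact ⟨Pool.Agent.Helper38.NSL.PLe_pull h.1 _, Pool.Agent.Helper38.NSL.PLe_pull h.2 _⟩

end pullz

/-! ### the copy of a zoom -/

theorem litC_p2 {α : ℕ → Type} {C : ∀ k, (S.F k).Ω → α k} {Z' : ∀ k, Setoid (S.F k).Ω} (hZ : LitC C Z') (k : ℕ)
    (w w' : ((cpd C).sp.F k).Ω) (a : ((cpd C).sp.F k).μ w ≠ 0) (b : ((cpd C).sp.F k).μ w' ≠ 0)
    (_ : ((cpd C).sp.F k).Z w w') : (cpd C).p1.pb Z' k w w' ↔ Z' k ((cpd C).p2.π k w) ((cpd C).p2.π k w') := by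
  have h1 : ∀ w, ((cpd C).sp.F k).μ w ≠ 0 → Z' k w.1 w.2 := fun w h =>
    hZ k _ _ ((cpd C).supp k w h).2.1 ((cpd C).supp k w h).2.2 (cpd_base C k w h) (cpd_eq C k w h)
  have h2 := h1 w a
  have h3 := h1 w' b
  constructor
  · intro h
    have h' : Z' k w.1 w'.1 := h
    exact (Z' k).trans ((Z' k).symm h2) ((Z' k).trans h' h3)
  · intro h
    have h' : Z' k w.2 w'.2 := h
    exact (Z' k).trans h2 ((Z' k).trans h' ((Z' k).symm h3))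

/-- THE COPY OF A ZOOM OVER A LITERAL LABEL IS A ZOOM OF THE COPY, in the pulled frame -/
theorem gzf_cpy {s : MSys S M E ι} {α : ℕ → Type} (C : ∀ k, (S.F k).Ω → α k) (hC : Dtm s.Q C)
    (l : κ → Leaf S s.Q E) {Z' : ∀ k, Setoid (S.F k).Ω} (hZ : LitC C Z') {La : Fin M → ℝ}
    (f : Frm s.Q (Lab.ofZ Z') La) (c e : ℝ) (he : 0 < e) {t : MSys ((Lab.ofZ Z').ovr e he) M E' ι}
    (ht : Gzf s (Lab.ofZ Z') f c e he t) (hC' : Dtm (S := S.chg Z' e he) t.Q C)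
    (lt : κ → Leaf ((Lab.ofZ Z').ovr e he) t.Q E')
    (hw : ∀ (b : ℝ) (j : κ), 0 ≤ b → b ≤ 1 → PLe ((lt j).win b) ((Lab.ofZ Z').up e he ((l j).win (c + e * b))) ∧
      PLe ((Lab.ofZ Z').up e he ((l j).win (c + e * b))) ((lt j).win b))
    (hl : ∀ j, Lfr (l j) f c e he (lt j)) :
    ∃ t' : MSys ((Lab.ofZ ((cpd C).p1.pb Z')).ovr e he) M E' (ι ⊕ κ),
      (⟨_, t'⟩ : Σ S : Sp, MSys S M E' (ι ⊕ κ)) = ⟨_, MSys.cpy (S := S.chg Z' e he) t C hC' lt⟩ ∧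
      Gzf (s.cpy C hC l) (Lab.ofZ ((cpd C).p1.pb Z')) (frmP (cpd C).p1 (fun _ _ _ _ _ _ => Iff.rfl) f) c e he t' := by
  have key : ∃ t' : MSys ((Lab.ofZ ((cpd C).p1.pb Z')).ovr e he) M E' (ι ⊕ κ),
      (⟨_, t'⟩ : Σ S : Sp, MSys S M E' (ι ⊕ κ)) = ⟨_, MSys.cpy (S := S.chg Z' e he) t C hC' lt⟩ ∧
      (t'.Q.v : ∀ k, (S.F k).Ω × (S.F k).Ω → Fin M → ℝ) = (MSys.cpy (S := S.chg Z' e he) t C hC' lt).Q.v ∧
      ∀ i, (raw (t'.lf i) : LRaw (fun k => (S.F k).Ω × (S.F k).Ω) M) =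
        raw ((MSys.cpy (S := S.chg Z' e he) t C hC' lt).lf i) :=
    exists_cpdt C Z' e he hZ (MSys.cpy (S := S.chg Z' e he) t C hC' lt)
  obtain ⟨t', e1, e2, e3⟩ := key
  have W1 : ∀ (k : ℕ) (ω ω' : ((cpd C).sp.F k).Ω), ((cpd C).sp.F k).μ ω ≠ 0 → ((cpd C).sp.F k).μ ω' ≠ 0 →
      ((cpd C).sp.F k).Z ω ω' → ((cpd C).p1.pb Z' k ω ω' ↔ Z' k ((cpd C).p1.π k ω) ((cpd C).p1.π k ω')) :=
    fun _ _ _ _ _ _ => Iff.rfl
  have W2 := litC_p2 hZ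
  refine ⟨t', e1, ⟨⟨?_, ?_⟩, ?_⟩⟩
  · obtain ⟨K, hK, h⟩ := ht.pt
    refine ⟨K, hK, ?_⟩
    filter_upwards [h] with k hk w hw j
    have h1 : t'.Q.v k w j = t.Q.v k w.1 j := congrFun (congrFun (congrFun e2 k) w) j
    rw [h1]
    exact hk w.1 ((cpd C).supp k w hw).2.1 j
  · intro b i h0 h1
    rcases i with i | j
    · have w1 : (t'.lf (Sum.inl i)).win b = ((t.lf i).win b).pull (pjz (cpd C).p1 W1 e he) := by
        funext k
        exact congrArg (fun ρ : LRaw (fun k => (S.F k).Ω × (S.F k).Ω) M =>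
          fc (F := ((Lab.ofZ ((cpd C).p1.pb Z')).ovr e he).F k)
            (winR ρ (((Lab.ofZ ((cpd C).p1.pb Z')).ovr e he).dl b k) k)) (e3 (Sum.inl i))
      have w2 : ((s.cpy C hC l).lf (Sum.inl i)).win (c + e * b) = ((s.lf i).win (c + e * b)).pull (cpd C).p1 :=
        s.cpy_cnd_old C hC l (c + e * b) i
      rw [w1, w2]
      exact win_pullz (cpd C).p1 W1 e he (ht.win b i h0 h1)
    · have w1 : (t'.lf (Sum.inr j)).win b = ((lt j).win b).pull (pjz (cpd C).p2 W2 e he) := by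
        funext k
        exact congrArg (fun ρ : LRaw (fun k => (S.F k).Ω × (S.F k).Ω) M =>
          fc (F := ((Lab.ofZ ((cpd C).p1.pb Z')).ovr e he).F k)
            (winR ρ (((Lab.ofZ ((cpd C).p1.pb Z')).ovr e he).dl b k) k)) (e3 (Sum.inr j))
      have w2 : ((s.cpy C hC l).lf (Sum.inr j)).win (c + e * b) = ((l j).win (c + e * b)).pull (cpd C).p2 :=
        s.cpy_cnd_new C hC l (c + e * b) j
      rw [w1, w2]
      exact win_pullz (cpd C).p2 W2 e he (hw b j h0 h1)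
  · intro i
    rw [lfr_iff]
    have h3 := e3 i
    rcases i with i | j
    · have h4 := (lfr_iff (s.lf i) f c e he (t.lf i)).1 (ht.lfr i)
      have h5 := h4.pull (cpd C).p1 (fun k w => f.P k w.1) (Eventually.of_forall fun _ _ _ => rfl)
      have h6 : (raw (S := (Lab.ofZ ((cpd C).p1.pb Z')).ovr e he) (t'.lf (Sum.inl i)) :
          LRaw (fun k => (S.F k).Ω × (S.F k).Ω) M) =
          (raw (S := (Lab.ofZ Z').ovr e he) (t.lf i)).pull (cpd C).p1.π := h3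
      exact h6 ▸ h5
    · have h4 := (lfr_iff (l j) f c e he (lt j)).1 (hl j)
      have h5 := h4.pull (cpd C).p2 (fun k w => f.P k w.1) (by
        filter_upwards [f.fn] with k hk w hw
        exact hk _ _ ((cpd C).supp k w hw).2.1 ((cpd C).supp k w hw).2.2 (cpd_base C k w hw)
          (hZ k _ _ ((cpd C).supp k w hw).2.1 ((cpd C).supp k w hw).2.2 (cpd_base C k w hw) (cpd_eq C k w hw)))
      have h6 : (raw (S := (Lab.ofZ ((cpd C).p1.pb Z')).ovr e he) (t'.lf (Sum.inr j)) :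
          LRaw (fun k => (S.F k).Ω × (S.F k).Ω) M) =
          (raw (S := (Lab.ofZ Z').ovr e he) (lt j)).pull (cpd C).p2.π := h3
      exact h6 ▸ h5

/-- the case of the resolution `R`, all types copied -/
theorem gzf_cpR {s : MSys S M E ι} {R : ∀ k, Setoid (S.F k).Ω} (hR : ∀ k, R k ≤ Setoid.ker (s.Q.cellv 1 k))
    {Z' : ∀ k, Setoid (S.F k).Ω} (hZ : LitC (rsC R) Z') {La : Fin M → ℝ} (f : Frm s.Q (Lab.ofZ Z') La) (c e : ℝ)
    (he : 0 < e) {t : MSys ((Lab.ofZ Z').ovr e he) M E' ι} (ht : Gzf s (Lab.ofZ Z') f c e he t)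
    (hC' : Dtm (S := S.chg Z' e he) t.Q (rsC R)) :
    ∃ t' : MSys ((Lab.ofZ ((cpd (rsC R)).p1.pb Z')).ovr e he) M E' (ι ⊕ ι),
      (⟨_, t'⟩ : Σ S : Sp, MSys S M E' (ι ⊕ ι)) = ⟨_, MSys.cpy (S := S.chg Z' e he) t (rsC R) hC' t.lf⟩ ∧
      Gzf (cpR s R hR s.lf) (Lab.ofZ ((cpd (rsC R)).p1.pb Z'))
        (frmP (cpd (rsC R)).p1 (fun _ _ _ _ _ _ => Iff.rfl) f) c e he t' :=
  gzf_cpy (rsC R) (Dtm_rsC hR) s.lf hZ f c e he ht hC' t.lf ht.win ht.lfr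

/-! ### zooms on events of extensions -/

theorem typ_of_pull (p : Pj T S) {A : ∀ k, (S.F k).Ω → Prop} (h : Typ (S := T) fun k ω => A k (p.π k ω)) :
    Typ A := by
  unfold Typ at h ⊢
  refine h.congr fun k => ?_
  have h1 := mass_pull (p.π k) (T.F k).μ (fun ω => ¬ A k ω)
  rw [p.law k] at h1
  exact h1

theorem typ_im (p : Pj T S) (A : ∀ k, (T.F k).Ω → Prop) (hA : 0 < ul (T.pr A)) {B : ∀ k, (S.F k).Ω → Prop}
    (hB : Typ B) : Typ (S := Sp.im p A) B := typ_of_pull (imq p A) (Sp.Typ.rest A hA (typ_pull p hB))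

theorem ple_im (p : Pj T S) (A : ∀ k, (T.F k).Ω → Prop) (hA : 0 < ul (T.pr A)) {X Y : Part S} (h : PLe X Y) :
    PLe (X.im p A) (Y.im p A) := by
  apply Pool.Agent.Helper38.NSL.PLe_of_pull (Sp.imq p A)
  rw [Part.im_pull, Part.im_pull]
  refine Nul.div_pr hA (Pool.Agent.Helper38.NSL.PLe_pull h p) (fun _ => h_nonneg _ _) fun k => ?_
  have := (T.F k).rmap_h_le (A k) ((X.pull p) k) ((Y.pull p) k)
  exact this.trans (by linarith)

/-- the frame on an event of an extension -/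
def frmI (p : Pj T S) (A : ∀ k, (T.F k).Ω → Prop) {Z : ∀ k, Setoid (S.F k).Ω} {Q : S.VV M} {La : Fin M → ℝ}
    (f : Frm Q (Lab.ofZ Z) La) : Frm (Q.im p A) (Lab.ofZ (S := Sp.im p A) Z) La where
  X := VV.im p A f.X
  P := f.P
  tri := f.tri
  red := f.red
  fn := by
    filter_upwards [f.fn] with k hk ω ω' a b c d
    exact hk _ _ (FSp.im_supp (p.fp k) (A k) ω a) (FSp.im_supp (p.fp k) (A k) ω' b) c d
  bd := by
    obtain ⟨K, hK, h⟩ := f.bd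
    refine ⟨K, hK, ?_⟩
    filter_upwards [h] with k hk ω hω
    exact hk _ (FSp.im_supp (p.fp k) (A k) ω hω)
  pt := by
    obtain ⟨K, hK, h⟩ := f.pt
    refine ⟨K, hK, ?_⟩
    filter_upwards [h] with k hk ω hω j
    exact hk _ (FSp.im_supp (p.fp k) (A k) ω hω) j

theorem ple_chP {Z : ∀ k, Setoid (S.F k).Ω} {e : ℝ} {he : 0 < e} {X Y : Part S} :
    PLe (chP Z e he X) (chP Z e he Y) ↔ PLe X (fun k => Y k ⊔ fc (Z k)) := by
  unfold PLe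
  rw [nul_chg]
  have e1 : (fun k => h (chP Z e he X k) (chP Z e he Y k)) = fun k => h (X k) (Y k ⊔ fc (Z k)) := by
    funext k
    exact (frb (S.F k) (Z k) e he).h_map (X k) (Y k)
  rw [e1]

theorem up_chP {Z : ∀ k, Setoid (S.F k).Ω} (e : ℝ) (he : 0 < e) (X : Part S) :
    (Lab.ofZ Z).up e he X = chP Z e he X := by
  funext k
  show (frb (S.F k) (Z k) e he).map ((FLab.triv (S.F k)).p.map (X k)) = (frb (S.F k) (Z k) e he).map (X k)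
  induction X k using fc_ind
  rfl

theorem chP_im (p : Pj T S) (A : ∀ k, (T.F k).Ω → Prop) (hA : 0 < ul (T.pr A)) {Z : ∀ k, Setoid (S.F k).Ω} {e : ℝ}
    {he : 0 < e} {X Y : Part S} (h : PLe (chP Z e he X) (chP Z e he Y)) :
    PLe (chP (S := Sp.im p A) Z e he (X.im p A)) (chP (S := Sp.im p A) Z e he (Y.im p A)) := by
  rw [ple_chP] at h ⊢
  have h1 := ple_im p A hA h
  have e1 : (Part.im p A fun k => Y k ⊔ fc (Z k)) = fun k => (Y.im p A) k ⊔ fc (F := (Sp.im p A).F k) (Z k) := by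
    funext k
    show FSp.imap (p.fp k) (A k) (Y k ⊔ fc (Z k)) = FSp.imap (p.fp k) (A k) (Y k) ⊔ fc (F := (Sp.im p A).F k) (Z k)
    induction Y k using fc_ind
    rfl
  rw [e1] at h1
  exact h1

/-- the zoom on the event -/
def zim (p : Pj T S) (A : ∀ k, (T.F k).Ω → Prop) (hA : 0 < ul (T.pr A)) {Z : ∀ k, Setoid (S.F k).Ω} {e : ℝ}
    {he : 0 < e} (t : MSys ((Lab.ofZ Z).ovr e he) M E' ι) : MSys ((Lab.ofZ (S := Sp.im p A) Z).ovr e he) M E' ι :=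
  MSys.im (S := S.chg Z e he) (pjb p Z e he) A hA t

theorem zim_win (p : Pj T S) (A : ∀ k, (T.F k).Ω → Prop) (hA : 0 < ul (T.pr A)) {Z : ∀ k, Setoid (S.F k).Ω} {e : ℝ}
    {he : 0 < e} (t : MSys ((Lab.ofZ Z).ovr e he) M E' ι) (i : ι) (b : ℝ) : ((zim p A hA t).lf i).win b =
      chP (S := Sp.im p A) Z e he (Part.im p A fun k =>
        fc (winR (raw (S := (Lab.ofZ Z).ovr e he) (t.lf i)) (((Lab.ofZ Z).ovr e he).dl b k) k)) := rfl

theorem win_chP {Z : ∀ k, Setoid (S.F k).Ω} {e : ℝ} {he : 0 < e} (t : MSys ((Lab.ofZ Z).ovr e he) M E' ι) (i : ι)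
    (b : ℝ) : (t.lf i).win b =
      chP Z e he (fun k => fc (winR (raw (S := (Lab.ofZ Z).ovr e he) (t.lf i)) (((Lab.ofZ Z).ovr e he).dl b k) k)) :=
  rfl

/-- A ZOOM OVER A LITERAL LABEL ON AN EVENT OF AN EXTENSION IS A ZOOM -/
theorem gzf_im {s : MSys S M E ι} {Z : ∀ k, Setoid (S.F k).Ω} {La : Fin M → ℝ} (f : Frm s.Q (Lab.ofZ Z) La)
    (c e : ℝ) (he : 0 < e) {t : MSys ((Lab.ofZ Z).ovr e he) M E' ι} (ht : Gzf s (Lab.ofZ Z) f c e he t)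
    (p : Pj T S) (A : ∀ k, (T.F k).Ω → Prop) (hA : 0 < ul (T.pr A)) :
    Gzf (s.im p A hA) (Lab.ofZ (S := Sp.im p A) Z) (frmI p A f) c e he (zim p A hA t) := by
  refine ⟨⟨?_, ?_⟩, ?_⟩
  · obtain ⟨K, hK, h⟩ := ht.pt
    refine ⟨K, hK, ?_⟩
    filter_upwards [h] with k hk ω hω
    exact hk ω (FSp.im_supp (p.fp k) (A k) ω hω)
  · intro b i h0 h1
    have h2 := ht.win b i h0 h1
    rw [up_chP, win_chP] at h2
    have e1 : ((s.im p A hA).lf i).win (c + e * b) = ((s.lf i).win (c + e * b)).im p A := rfl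
    rw [e1, up_chP, zim_win]
    exact ⟨chP_im p A hA h2.1, chP_im p A hA h2.2⟩
  · intro i
    obtain ⟨h1, o, h2, h3⟩ := ht.lfr i
    exact ⟨h1, o, h2, typ_im p A hA h3⟩

theorem Dtm_of {Q : S.VV M} {R : ∀ k, Setoid (S.F k).Ω}
    (h : ∀ k, R k ⊓ (S.F k).Z ≤ Setoid.ker (Q.cellv 1 k)) : Dtm Q (rsC R) :=
  Eventually.of_forall fun k _ _ _ _ hZ hC => h k ⟨Quotient.exact hC, hZ⟩

/-! ### the class of the events of extensions of copies -/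

/-- EVENTS OF EXTENSIONS OF THE COPIES `s^+` of the pairs `(s, R)` of a class -/
def G0 (P : ∀ S : Sp, MSys S M E ι → (∀ k, Setoid (S.F k).Ω) → Prop) (X : Sp) (x : MSys X M E (ι ⊕ ι)) : Prop :=
  ∃ (S : Sp) (s : MSys S M E ι) (R : ∀ k, Setoid (S.F k).Ω) (hC : Dtm s.Q (rsC R)) (T : Sp)
    (p : Pj T (cpd (rsC R)).sp) (A : ∀ k, (T.F k).Ω → Prop) (hA : 0 < ul (T.pr A)), P S s R ∧
    (⟨X, x⟩ : Σ S : Sp, MSys S M E (ι ⊕ ι)) = ⟨_, (s.cpy (rsC R) hC s.lf).im p A hA⟩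

variable {P : ∀ S : Sp, MSys S M E ι → (∀ k, Setoid (S.F k).Ω) → Prop}

/-- closed under events of extensions -/
theorem G0.im {X : Sp} {x : MSys X M E (ι ⊕ ι)} (h : G0 P X x) {T : Sp} (p : Pj T X) (A : ∀ k, (T.F k).Ω → Prop)
    (hA : 0 < ul (T.pr A)) : G0 P (Sp.im p A) (x.im p A hA) := by
  obtain ⟨S, s, R, hC, T', p', A', hA', hP, he⟩ := h
  cases he
  obtain ⟨W, q, B, hB, h1⟩ := im_im (M := M) (E := E) (ι := ι ⊕ ι) p' A' hA' p A hA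
  exact ⟨S, s, R, hC, W, q, B, hB, hP, h1 _⟩

/-- closed under truncations -/
theorem G0.trn (r : ℝ) (h0 : 0 < r) (h1 : r ≤ 1) (hP : ∀ S (s : MSys S M E ι) R, P S s R →
    P (S.chg S.tr r h0) (s.trn r h0 h1) R ∧ Dtm (s.trn r h0 h1).Q (rsC (S := S.chg S.tr r h0) R))
    {X : Sp} {x : MSys X M E (ι ⊕ ι)} (h : G0 P X x) : G0 P (X.chg X.tr r h0) (x.trn r h0 h1) := by
  obtain ⟨S, s, R, hC, T', p', A', hA', hs, he⟩ := h
  cases he
  obtain ⟨h2, h3⟩ := hP S s R hs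
  have e1 := cpy_trn (rsC R) hC s.lf r h0 h1 h3
  have key : ∀ (Y : Sp) (y : MSys Y M E (ι ⊕ ι)), (⟨Y, y⟩ : Σ S : Sp, MSys S M E (ι ⊕ ι)) =
      ⟨_, (s.cpy (rsC R) hC s.lf).trn r h0 h1⟩ → ∃ (T : Sp) (p : Pj T Y) (A : ∀ k, (T.F k).Ω → Prop)
      (hA : 0 < ul (T.pr A)), (⟨_, ((s.cpy (rsC R) hC s.lf).trn r h0 h1).im (pjb p' (cpd (rsC R)).sp.tr r h0) A' hA'⟩ :
        Σ S : Sp, MSys S M E (ι ⊕ ι)) = ⟨_, y.im p A hA⟩ := by
    intro Y y hy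
    cases hy
    exact ⟨_, pjb p' (cpd (rsC R)).sp.tr r h0, A', hA', rfl⟩
  obtain ⟨T, p, A, hA, h4⟩ := key _ _ e1
  exact ⟨_, s.trn r h0 h1, R, h3, T, p, A, hA, h2, h4⟩

/-- closed under zooms over literal functions of the resolution and of the base -/
theorem G0.zoom (c e : ℝ) (he : 0 < e) (La : Fin M → ℝ) (hP : ∀ S (s : MSys S M E ι) R, P S s R → Dtm s.Q (rsC R) →
    ∃ (Z : ∀ k, Setoid (S.F k).Ω) (f : Frm s.Q (Lab.ofZ Z) La) (t : MSys ((Lab.ofZ Z).ovr e he) M E ι),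
      LitC (rsC R) Z ∧ Gzf s (Lab.ofZ Z) f c e he t ∧ P (S.chg Z e he) t R ∧
      Dtm (S := S.chg Z e he) t.Q (rsC (S := S.chg Z e he) R)) {X : Sp} {x : MSys X M E (ι ⊕ ι)} (h : G0 P X x) :
    ∃ (Z : ∀ k, Setoid (X.F k).Ω) (f : Frm x.Q (Lab.ofZ Z) La) (t : MSys ((Lab.ofZ Z).ovr e he) M E (ι ⊕ ι)),
      Gzf x (Lab.ofZ Z) f c e he t ∧ G0 P ((Lab.ofZ Z).ovr e he) t := by
  obtain ⟨S, s, R, hC, T', p', A', hA', hs, hx⟩ := h
  cases hx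
  obtain ⟨Z, f, t, hZ, hg, ht, hD⟩ := hP S s R hs hC
  obtain ⟨t', e1, h1⟩ := gzf_cpy (rsC R) hC s.lf hZ f c e he hg hD t.lf hg.win hg.lfr
  refine ⟨(cpd (rsC R)).p1.pb Z, frmI p' A' _, zim p' A' hA' t', gzf_im _ c e he h1 p' A' hA', ?_⟩
  have key : ∀ (Y : Sp) (y : MSys Y M E (ι ⊕ ι)), (⟨Y, y⟩ : Σ S : Sp, MSys S M E (ι ⊕ ι)) =
      ⟨(cpd (rsC R)).sp.chg ((cpd (rsC R)).p1.pb Z) e he, t'⟩ → ∃ (T : Sp) (p : Pj T Y) (A : ∀ k, (T.F k).Ω → Prop)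
      (hA : 0 < ul (T.pr A)), (⟨_, MSys.im (S := (cpd (rsC R)).sp.chg ((cpd (rsC R)).p1.pb Z) e he)
        (pjb p' ((cpd (rsC R)).p1.pb Z) e he) A' hA' t'⟩ : Σ S : Sp, MSys S M E (ι ⊕ ι)) = ⟨_, y.im p A hA⟩ := by
    intro Y y hy
    cases hy
    exact ⟨_, pjb p' ((cpd (rsC R)).p1.pb Z) e he, A', hA', rfl⟩
  obtain ⟨T, p, A, hA, h4⟩ := key _ _ e1.symm
  exact ⟨_, t, R, hD, T, p, A, hA, ht, h4⟩

end

end Pool.Agent.Helper81.CPY
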