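import Pool.Agent.Helper81.CPY.Inv
import Pool.Agent.Helper38.NSL.Ni

/-! Fresh copies given a resolution: truncations and finer bases. The copy `cpR s R` of the truncated system is the
truncation of the copy; if the finer base is a literal function of the resolution and of the base, the copy over the
finer base is the copy seen over the finer base. Equalities of pairs (space, system). -/

set_option autoImplicit false

namespace Pool.Agent.Helper81.CPY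

open Finset Filter Topology Matrix Pool.Agent.Helper69.RK Pool.Agent.Helper31.EC Pool.Agent.Helper31.EC.Sp
open Pool.Agent.Helper40.EL Pool.Agent.Helper84.MT

noncomputable section

/-! ### pairs (space, system) -/

/-- THE DATA OF A LEAF (all other fields are proofs) -/
structure LRaw (Ω : ℕ → Type) (M : ℕ) where
  e : ℕ
  La : ∀ k, Setoid (Ω k)
  Y : ∀ k, Ω k → Fin e → ℝ
  F : ∀ k, Ω k → (Fin e → ℝ) → Fin M → ℝ
  al : ∀ k, Ω k → ℕ → Set ((Fin e → ℝ) → ℝ)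

variable {S T : Sp} {M : ℕ} {E : ℕ → ℕ} {ι κ : Type}

/-- the data of a leaf -/
def raw {Q : S.VV M} (l : Leaf S Q E) : LRaw (fun k => (S.F k).Ω) M := ⟨l.e, l.La, l.Y.v, l.F, l.al⟩

theorem VV_ext {q : ℕ} {y y' : S.VV q} (h : y.v = y'.v) : y = y' := by
  cases y
  cases y'
  cases h
  rfl

theorem raw_inj {Q : S.VV M} {l l' : Leaf S Q E} (h : raw l = raw l') : l = l' := by
  obtain ⟨e, he, La, ⟨Y, bY⟩, F, fn, bd, al, alg, crF, seg, pt, full⟩ := l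
  obtain ⟨e', he', La', ⟨Y', bY'⟩, F', fn', bd', al', alg', crF', seg', pt', full'⟩ := l'
  cases h
  rfl

/-- a space from its data -/
def spOf (Ω : ℕ → Type) (ft : ∀ k, Fintype (Ω k)) (μ : ∀ k, Ω k → ℝ) (nn : ∀ k ω, 0 ≤ μ k ω)
    (m1 : ∀ k, mass (μ k) = 1) (Z : ∀ k, Setoid (Ω k)) (n : ℕ → ℝ) (pos : ∀ k, 0 < n k)
    (lim : Tendsto n UF atTop) : Sp := ⟨fun k => ⟨Ω k, ft k, μ k, nn k, m1 k, Z k, n k, pos k⟩, lim⟩

/-- equality of pairs (space, system) on the same carriers -/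
theorem sig_mk (Ω : ℕ → Type) (ft : ∀ k, Fintype (Ω k)) (μ μ' : ∀ k, Ω k → ℝ) (nn : ∀ k ω, 0 ≤ μ k ω)
    (nn' : ∀ k ω, 0 ≤ μ' k ω) (m1 : ∀ k, mass (μ k) = 1) (m1' : ∀ k, mass (μ' k) = 1) (Z Z' : ∀ k, Setoid (Ω k))
    (n n' : ℕ → ℝ) (pos : ∀ k, 0 < n k) (pos' : ∀ k, 0 < n' k) (lim : Tendsto n UF atTop)
    (lim' : Tendsto n' UF atTop) (hμ : μ = μ') (hZ : Z = Z') (hn : n = n')
    (s : MSys (spOf Ω ft μ nn m1 Z n pos lim) M E ι) (s' : MSys (spOf Ω ft μ' nn' m1' Z' n' pos' lim') M E ι)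
    (hQ : s.Q.v = s'.Q.v) (hl : ∀ i, (raw (s.lf i) : LRaw Ω M) = raw (s'.lf i)) :
    (⟨_, s⟩ : Σ S : Sp, MSys S M E ι) = ⟨_, s'⟩ := by
  subst hμ hZ hn
  obtain ⟨Q, lf⟩ := s
  obtain ⟨Q', lf'⟩ := s'
  have e1 : Q = Q' := VV_ext hQ
  subst e1
  have e2 : lf = lf' := funext fun i => raw_inj (hl i)
  subst e2
  rfl

/-- predicates of systems do not see equalities of pairs -/
theorem sig_pred (P : ∀ S : Sp, MSys S M E ι → Prop) {s : MSys S M E ι} {t : MSys T M E ι}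
    (h : (⟨S, s⟩ : Σ S : Sp, MSys S M E ι) = ⟨T, t⟩) : P S s ↔ P T t := by
  cases h
  exact Iff.rfl

/-! ### weights of amalgams -/

theorem ms_congr {Ω α β : Type} [Fintype Ω] (μ : Ω → ℝ) (f : Ω → α) (g : Ω → β) (a : α) (b : β)
    (h : ∀ ω, μ ω ≠ 0 → (f ω = a ↔ g ω = b)) : ms μ f a = ms μ g b := by
  unfold ms
  refine Finset.sum_congr rfl fun ω _ => ?_
  by_cases h0 : μ ω = 0
  · rw [h0, mul_zero, mul_zero]
  · by_cases h1 : f ω = a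
    · rw [e1_ind_pos h1, e1_ind_pos ((h ω h0).1 h1)]
    · rw [e1_ind_neg h1, e1_ind_neg fun h2 => h1 ((h ω h0).2 h2)]

/-- the weights of an amalgam depend on the relations only -/
theorem amw_congr {Ω Ω' α β : Type} [Fintype Ω] [Fintype Ω'] (μ : Ω → ℝ) (μ' : Ω' → ℝ) (f : Ω → α) (g : Ω' → α)
    (f₁ : Ω → β) (g₁ : Ω' → β) (h1 : ∀ ω ω', μ ω ≠ 0 → μ ω' ≠ 0 → (f ω = f ω' ↔ f₁ ω = f₁ ω'))
    (h2 : ∀ ω ω', μ ω ≠ 0 → μ' ω' ≠ 0 → (f ω = g ω' ↔ f₁ ω = g₁ ω')) : amw μ μ' f g = amw μ μ' f₁ g₁ := by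
  funext w
  unfold amw
  by_cases a : μ w.1 = 0
  · rw [a]
    simp
  by_cases b : μ' w.2 = 0
  · rw [b]
    simp
  rw [ms_congr μ f f₁ (f w.1) (f₁ w.1) fun ω hω => h1 ω w.1 hω a]
  by_cases c : f w.1 = g w.2
  · rw [e1_ind_pos c, e1_ind_pos ((h2 _ _ a b).1 c)]
  · rw [e1_ind_neg c, e1_ind_neg fun h => c ((h2 _ _ a b).2 h)]

/-! ### the space with a copy over a finer base -/

/-- the partition `Z'` is a literal function of `C` and of the base -/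
def LitC {α : ℕ → Type} (C : ∀ k, (S.F k).Ω → α k) (Z' : ∀ k, Setoid (S.F k).Ω) : Prop :=
  ∀ k ω ω', (S.F k).μ ω ≠ 0 → (S.F k).μ ω' ≠ 0 → (S.F k).Z ω ω' → C k ω = C k ω' → Z' k ω ω'

theorem LitC_tr {α : ℕ → Type} (C : ∀ k, (S.F k).Ω → α k) : LitC C S.tr := fun _ _ _ _ _ _ _ => trivial

theorem LitC_rsC {R Z' : ∀ k, Setoid (S.F k).Ω} (h : ∀ k, R k ⊓ (S.F k).Z ≤ Z' k) : LitC (rsC R) Z' :=
  fun k _ _ _ _ hZ hC => h k ⟨Quotient.exact hC, hZ⟩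

/-- the same weights -/
theorem cpd_chg_mu {α : ℕ → Type} (C : ∀ k, (S.F k).Ω → α k) (Z' : ∀ k, Setoid (S.F k).Ω) (r : ℝ) (hr : 0 < r)
    (hZ : LitC C Z') (k : ℕ) : ((cpd (S := S.chg Z' r hr) C).sp.F k).μ = ((cpd C).sp.F k).μ := by
  refine amw_congr (S.F k).μ (S.F k).μ (fun ω => (C k ω, Quotient.mk (Z' k ⊓ (S.F k).Z) ω))
    (fun ω => (C k ω, Quotient.mk (Z' k ⊓ (S.F k).Z) ω)) (fun ω => (C k ω, Quotient.mk (S.F k).Z ω))
    (fun ω => (C k ω, Quotient.mk (S.F k).Z ω)) ?_ ?_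
  all_goals
    intro ω ω' a b
    rw [Prod.mk.injEq, Prod.mk.injEq]
    constructor
    · rintro ⟨c, d⟩
      exact ⟨c, Quotient.sound (Quotient.exact d : (Z' k ⊓ (S.F k).Z) ω ω').2⟩
    · rintro ⟨c, d⟩
      have d' : (S.F k).Z ω ω' := Quotient.exact d
      exact ⟨c, Quotient.sound (⟨hZ k ω ω' a b d' c, d'⟩ : (Z' k ⊓ (S.F k).Z) ω ω')⟩

/-- EQUALITY OF PAIRS over the copy of a space with a finer base (and another depth) -/
theorem sig_cpd {α : ℕ → Type} (C : ∀ k, (S.F k).Ω → α k) (Z' : ∀ k, Setoid (S.F k).Ω) (r : ℝ) (hr : 0 < r)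
    (hZ : LitC C Z') (s : MSys (cpd (S := S.chg Z' r hr) C).sp M E ι)
    (t : MSys ((cpd C).sp.chg ((cpd C).p1.pb Z') r hr) M E ι)
    (hQ : (s.Q.v : ∀ k, (S.F k).Ω × (S.F k).Ω → Fin M → ℝ) = t.Q.v)
    (hl : ∀ i, (raw (s.lf i) : LRaw (fun k => (S.F k).Ω × (S.F k).Ω) M) = raw (t.lf i)) :
    (⟨_, s⟩ : Σ S : Sp, MSys S M E ι) = ⟨_, t⟩ :=
  sig_mk (fun k => (S.F k).Ω × (S.F k).Ω) (fun _ => inferInstance)
    (fun k => ((cpd (S := S.chg Z' r hr) C).sp.F k).μ) (fun k => ((cpd C).sp.F k).μ)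
    (fun k => ((cpd (S := S.chg Z' r hr) C).sp.F k).nn) (fun k => ((cpd C).sp.F k).nn)
    (fun k => ((cpd (S := S.chg Z' r hr) C).sp.F k).ms) (fun k => ((cpd C).sp.F k).ms)
    (fun k => ((cpd (S := S.chg Z' r hr) C).sp.F k).Z) (fun k => (((cpd C).sp.chg ((cpd C).p1.pb Z') r hr).F k).Z)
    (fun k => ((cpd (S := S.chg Z' r hr) C).sp.F k).n) (fun k => (((cpd C).sp.chg ((cpd C).p1.pb Z') r hr).F k).n)
    (fun k => ((cpd (S := S.chg Z' r hr) C).sp.F k).pos)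
    (fun k => (((cpd C).sp.chg ((cpd C).p1.pb Z') r hr).F k).pos) (cpd (S := S.chg Z' r hr) C).sp.lim
    ((cpd C).sp.chg ((cpd C).p1.pb Z') r hr).lim (funext (cpd_chg_mu C Z' r hr hZ)) rfl rfl s t hQ hl

/-! ### truncations -/

/-- THE COPY OF THE TRUNCATED SYSTEM IS THE TRUNCATION OF THE COPY -/
theorem cpy_trn {s : MSys S M E ι} {α : ℕ → Type} (C : ∀ k, (S.F k).Ω → α k) (hC : Dtm s.Q C)
    (l : κ → Leaf S s.Q E) (r : ℝ) (h0 : 0 < r) (h1 : r ≤ 1) (hC' : Dtm (s.trn r h0 h1).Q C) :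
    (⟨_, (s.trn r h0 h1).cpy C hC' (fun j => (l j).trn r h0 h1)⟩ : Σ S : Sp, MSys S M E (ι ⊕ κ)) =
      ⟨_, (s.cpy C hC l).trn r h0 h1⟩ := by
  refine sig_cpd C S.tr r h0 (LitC_tr C) _ _ rfl fun i => ?_
  rcases i with i | j
  · rfl
  · rfl

theorem cpR_trn {s : MSys S M E ι} {R : ∀ k, Setoid (S.F k).Ω} (hR : ∀ k, R k ≤ Setoid.ker (s.Q.cellv 1 k))
    (l : κ → Leaf S s.Q E) (r : ℝ) (h0 : 0 < r) (h1 : r ≤ 1)
    (hR' : ∀ k, R k ≤ Setoid.ker ((s.trn r h0 h1).Q.cellv 1 k)) :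
    (⟨_, cpR (s.trn r h0 h1) R hR' (fun j => (l j).trn r h0 h1)⟩ : Σ S : Sp, MSys S M E (ι ⊕ κ)) =
      ⟨_, (cpR s R hR l).trn r h0 h1⟩ := cpy_trn (rsC R) (Dtm_rsC hR) l r h0 h1 (Dtm_rsC hR')

/-! ### a finer base -/

/-- partitions which are common -/
theorem pull_litC {α : ℕ → Type} {C : ∀ k, (S.F k).Ω → α k} {Z' : ∀ k, Setoid (S.F k).Ω} (hZ : LitC C Z') :
    (pof Z').pull (cpd C).p1 = (pof Z').pull (cpd C).p2 := by
  funext k
  exact cpd_common C k (Z' k) (hZ k)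

theorem ple_cpy {s : MSys S M E ι} {α : ℕ → Type} (C : ∀ k, (S.F k).Ω → α k) (hC : Dtm s.Q C)
    (l : κ → Leaf S s.Q E) {Z' : ∀ k, Setoid (S.F k).Ω} (hZ : LitC C Z')
    (h1 : ∀ i, PLe (fun k => fc (Z' k)) (fun k => fc ((s.lf i).La k)))
    (h2 : ∀ j, PLe (fun k => fc (Z' k)) (fun k => fc ((l j).La k))) (i : ι ⊕ κ) :
    PLe (fun k => fc ((cpd C).p1.pb Z' k)) (fun k => fc (((s.cpy C hC l).lf i).La k)) := by
  rcases i with i | j
  · exact Pool.Agent.Helper38.NSL.PLe_pull (h1 i) (cpd C).p1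
  · have h3 : PLe ((pof Z').pull (cpd C).p2) (Part.pull (cpd C).p2 (pof (l j).La)) :=
      Pool.Agent.Helper38.NSL.PLe_pull (h2 j) (cpd C).p2
    rw [← pull_litC hZ] at h3
    exact h3

/-- THE COPY OVER A FINER BASE (a literal function of the common variable and of the base) -/
theorem cpy_bas {s : MSys S M E ι} {α : ℕ → Type} (C : ∀ k, (S.F k).Ω → α k) (hC : Dtm s.Q C)
    (l : κ → Leaf S s.Q E) {Z' : ∀ k, Setoid (S.F k).Ω} (hZ : LitC C Z')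
    (h1 : ∀ i, PLe (fun k => fc (Z' k)) (fun k => fc ((s.lf i).La k)))
    (h2 : ∀ j, PLe (fun k => fc (Z' k)) (fun k => fc ((l j).La k))) (hC' : Dtm (s.bas Z' h1).Q C)
    (h3 : ∀ i : ι ⊕ κ, PLe (fun k => fc ((cpd C).p1.pb Z' k)) (fun k => fc (((s.cpy C hC l).lf i).La k))) :
    (⟨_, (s.bas Z' h1).cpy C hC' (fun j => (l j).bas Z' (h2 j))⟩ : Σ S : Sp, MSys S M E (ι ⊕ κ)) =
      ⟨_, (s.cpy C hC l).bas ((cpd C).p1.pb Z') h3⟩ := by
  refine sig_cpd C Z' 1 one_pos hZ _ _ rfl fun i => ?_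
  rcases i with i | j
  · rfl
  · rfl

end

end Pool.Agent.Helper81.CPY
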