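import Pool.Agent.Helper84.MT.Fun
import Pool.Agent.Helper81.MT.Trn
import Pool.Agent.Helper81.MT.Glb
import Pool.Agent.Helper31.EC.AmS

/-! MULTI-TYPE LAYER: COPIES OF LEAVES AS NEW TYPES. Let `C` be a literal variable which determines the finest cell of
the point. The amalgam `cpd C` of the space with a new copy of itself over `C` (and the base) carries the old system (all
windows are literally pulled) and, as new types through the same point, the copies of any types of leaves of the old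
space. Given `C` and the base, the new copy is independent of the old space. -/

set_option autoImplicit false

namespace Pool.Agent.Helper84.MT

open Finset Filter Topology Matrix Pool.Agent.Helper69.RK Pool.Agent.Helper31.EC Pool.Agent.Helper31.EC.Sp
open Pool.Agent.Helper40.EL Pool.Agent.Helper89.LX Pool.Agent.Helper3.LF

noncomputable section

variable {S T : Sp} {M : ℕ} {E : ℕ → ℕ} {ι κ : Type} {α : ℕ → Type}

/-! ### the space -/

/-- the space with a new copy of itself, over the literal variable `C` and the base -/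
def cpd (C : ∀ k, (S.F k).Ω → α k) : AmD S S := (Pj.id S).join C

theorem cpd_eq (C : ∀ k, (S.F k).Ω → α k) (k : ℕ) (w : ((cpd C).sp.F k).Ω) (h : ((cpd C).sp.F k).μ w ≠ 0) :
    C k w.1 = C k w.2 := (Pj.id S).join_supp C k w h

theorem cpd_base (C : ∀ k, (S.F k).Ω → α k) (k : ℕ) (w : ((cpd C).sp.F k).Ω) (h : ((cpd C).sp.F k).μ w ≠ 0) :
    (S.F k).Z w.1 w.2 := by
  have h1 : (C k w.1, Quotient.mk (S.F k).Z w.1) = (C k w.2, Quotient.mk (S.F k).Z w.2) :=
    ((cpd C).supp k w h).1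
  exact (Quotient.eq (r := (S.F k).Z)).mp (congrArg Prod.snd h1)

/-- finite amalgam -/
def cpf (C : ∀ k, (S.F k).Ω → α k) (k : ℕ) : FAm (S.F k) (S.F k) where
  α := (cpd C).α k
  f := (cpd C).f k
  g := (cpd C).g k
  law := (cpd C).law k
  Zr := (cpd C).Zr k
  hZ1 := (cpd C).hZ1 k
  hZ2 := (cpd C).hZ2 k

/-- the old space and the new copy are INDEPENDENT GIVEN `C` and the base, exactly, at every finite level -/
theorem cpd_indep (C : ∀ k, (S.F k).Ω → α k) (k : ℕ) (x y : FL (S.F k)) :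
    I (((cpd C).p1.fp k).map x) (((cpd C).p2.fp k).map y) (((cpd C).p1.fp k).map (fc (Setoid.ker (C k)))) = 0 := by
  have h1 := (cpf C k).indep x y
  have e1 : (fc (Setoid.ker (cpf C k).f) : FL (S.F k)) = fc (Setoid.ker (C k)) := by
    apply le_antisymm
    · apply fc_le
      intro ω ω' _ _ hZ hC
      have h2 : C k ω = C k ω' := hC
      have h3 : Quotient.mk (S.F k).Z ω = Quotient.mk (S.F k).Z ω' := Quotient.sound hZ
      show (C k ω, Quotient.mk (S.F k).Z ω) = (C k ω', Quotient.mk (S.F k).Z ω')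
      rw [h2, h3]
    · apply fc_mono
      intro ω ω' h
      have h2 : (C k ω, Quotient.mk (S.F k).Z ω) = (C k ω', Quotient.mk (S.F k).Z ω') := h
      exact congrArg Prod.fst h2
  rw [e1] at h1
  exact h1

/-- the images of the finest partition -/
theorem fp_map_bot (p : Pj T S) (k : ℕ) : (p.fp k).map (fc ⊥) = (p.fp k).top := by
  rw [FPj.map_fc]
  unfold FPj.top
  congr 1

theorem cpd_indep_top (C : ∀ k, (S.F k).Ω → α k) (k : ℕ) :
    I ((cpd C).p1.fp k).top ((cpd C).p2.fp k).top (((cpd C).p1.fp k).map (fc (Setoid.ker (C k)))) = 0 := by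
  rw [← fp_map_bot, ← fp_map_bot]
  exact cpd_indep C k _ _

/-- everything which is known to `C` literally is common -/
theorem cpd_common (C : ∀ k, (S.F k).Ω → α k) (k : ℕ) (A : Setoid (S.F k).Ω) (h0 : ∀ ω ω', (S.F k).μ ω ≠ 0 →
    (S.F k).μ ω' ≠ 0 → (S.F k).Z ω ω' → C k ω = C k ω' → A ω ω') :
    ((cpd C).p1.fp k).map (fc A) = ((cpd C).p2.fp k).map (fc A) := by
  have h1 : ∀ w, ((cpd C).sp.F k).μ w ≠ 0 → A w.1 w.2 := fun w h =>
    h0 _ _ ((cpd C).supp k w h).2.1 ((cpd C).supp k w h).2.2 (cpd_base C k w h) (cpd_eq C k w h)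
  apply le_antisymm
  · apply fc_le
    intro w w' h h' _ e
    have e' : A w.2 w'.2 := e
    exact A.trans (h1 w h) (A.trans e' (A.symm (h1 w' h')))
  · apply fc_le
    intro w w' h h' _ e
    have e' : A w.1 w'.1 := e
    exact A.trans (A.symm (h1 w h)) (A.trans e' (h1 w' h'))

/-! ### the point -/

/-- the literal variable `C` determines the finest cell of the point, over the base -/
def Dtm (Q : S.VV M) (C : ∀ k, (S.F k).Ω → α k) : Prop := ∀ᶠ k in UF, ∀ ω ω', (S.F k).μ ω ≠ 0 →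
  (S.F k).μ ω' ≠ 0 → (S.F k).Z ω ω' → C k ω = C k ω' → Q.cellv 1 k ω = Q.cellv 1 k ω'

theorem Dtm_cell (Q : S.VV M) : Dtm Q (fun k ω => Q.cellv 1 k ω) := Eventually.of_forall fun _ _ _ _ _ _ h => h

theorem Dtm_prod (Q : S.VV M) (x : ∀ k, (S.F k).Ω → α k) : Dtm Q (fun k ω => (Q.cellv 1 k ω, x k ω)) :=
  Eventually.of_forall fun _ _ _ _ _ _ h => congrArg Prod.fst h

/-- the points of the old space and of the copy are in the same cell -/
theorem cpd_cell {Q : S.VV M} {C : ∀ k, (S.F k).Ω → α k} (hC : Dtm Q C) : ∀ᶠ k in UF,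
    ∀ w, ((cpd C).sp.F k).μ w ≠ 0 → Q.cellv 1 k w.1 = Q.cellv 1 k w.2 := by
  filter_upwards [hC] with k hk w h
  exact hk _ _ ((cpd C).supp k w h).2.1 ((cpd C).supp k w h).2.2 (cpd_base C k w h) (cpd_eq C k w h)

theorem cpd_close {Q : S.VV M} {C : ∀ k, (S.F k).Ω → α k} (hC : Dtm Q C) : ∃ K : ℕ → ℝ, (cpd C).sp.Sub K ∧
    ∀ᶠ k in UF, ∀ ω, ((cpd C).sp.F k).μ ω ≠ 0 → ∀ i,
      |((cpd C).p1.vv Q).v k ω i - ((cpd C).p2.vv Q).v k ω i| ≤ K k * (cpd C).sp.dl 1 k := by
  refine ⟨fun _ => 1, (cpd C).sp.Sub_const zero_le_one, ?_⟩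
  filter_upwards [cpd_cell hC] with k hk w h i
  rw [one_mul]
  exact abs_sub_le_of_floor_eq (S.dl_pos 1 k) (congrFun (hk w h) i)

/-- the points of the old space and of the copy are the same condition -/
theorem pcd_cpd {Q : S.VV M} {C : ∀ k, (S.F k).Ω → α k} (hC : Dtm Q C) : ∀ᶠ k in UF,
    ((pcd Q).pull (cpd C).p1) k = ((pcd Q).pull (cpd C).p2) k := by
  filter_upwards [hC] with k hk
  exact cpd_common C k _ fun ω ω' a b c d => hk ω ω' a b c d

/-! ### leaves -/

/-- THE COPY OF A TYPE OF LEAVES, as a type of leaves through the old point -/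
def Leaf.cpy {Q : S.VV M} (l : Leaf S Q E) (C : ∀ k, (S.F k).Ω → α k) (hC : Dtm Q C) :
    Leaf (cpd C).sp ((cpd C).p1.vv Q) E := (l.pull (cpd C).p2).congrQ (cpd_close hC)

theorem Leaf.cpy_win {Q : S.VV M} (l : Leaf S Q E) (C : ∀ k, (S.F k).Ω → α k) (hC : Dtm Q C) (c : ℝ) :
    (l.cpy C hC).win c = (l.win c).pull (cpd C).p2 := win_pull (cpd C).p2 l c

/-- THE SYSTEM WITH COPIES OF THE TYPES `l` AS NEW TYPES -/
def MSys.cpy (s : MSys S M E ι) (C : ∀ k, (S.F k).Ω → α k) (hC : Dtm s.Q C) (l : κ → Leaf S s.Q E) :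
    MSys (cpd C).sp M E (ι ⊕ κ) := s.add (cpd C).p1 (fun j => (l j).cpy C hC)

section
variable (s : MSys S M E ι) (C : ∀ k, (S.F k).Ω → α k) (hC : Dtm s.Q C) (l : κ → Leaf S s.Q E)

theorem MSys.cpy_Q : (s.cpy C hC l).Q = (cpd C).p1.vv s.Q := rfl

theorem MSys.cpy_old (i : ι) : (s.cpy C hC l).lf (Sum.inl i) = (s.lf i).pull (cpd C).p1 := rfl

theorem MSys.cpy_new (j : κ) : (s.cpy C hC l).lf (Sum.inr j) = (l j).cpy C hC := rfl

theorem MSys.cpy_cnd_none (c : ℝ) : (s.cpy C hC l).cnd c none = (pcd s.Q).pull (cpd C).p1 :=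
  pcd_pull (cpd C).p1 s.Q

/-- the windows of the old types are literally the old windows -/
theorem MSys.cpy_cnd_old (c : ℝ) (i : ι) : (s.cpy C hC l).cnd c (some (Sum.inl i)) =
    ((s.lf i).win c).pull (cpd C).p1 := win_pull (cpd C).p1 (s.lf i) c

/-- the windows of the new types are the windows of the copy -/
theorem MSys.cpy_cnd_new (c : ℝ) (j : κ) : (s.cpy C hC l).cnd c (some (Sum.inr j)) =
    ((l j).win c).pull (cpd C).p2 := (l j).cpy_win C hC c

end

/-! ### the law of the copy -/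

/-- the law of the copy and of the old point is the old law -/
theorem cpy_h {Q : S.VV M} {C : ∀ k, (S.F k).Ω → α k} (hC : Dtm Q C) : ∀ᶠ k in UF, ∀ x z : FL (S.F k),
    h (((cpd C).p2.fp k).map x) (((cpd C).p2.fp k).map z ⊔ ((pcd Q).pull (cpd C).p1) k) = h x (z ⊔ pcd Q k) := by
  filter_upwards [pcd_cpd hC] with k hk x z
  rw [hk]
  have e1 : ((cpd C).p2.fp k).map z ⊔ ((pcd Q).pull (cpd C).p2) k = ((cpd C).p2.fp k).map (z ⊔ pcd Q k) := by
    rw [FPj.map_sup]
    rfl
  rw [e1, FPj.h_map]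

theorem cpy_I {Q : S.VV M} {C : ∀ k, (S.F k).Ω → α k} (hC : Dtm Q C) : ∀ᶠ k in UF, ∀ x y z : FL (S.F k),
    I (((cpd C).p2.fp k).map x) (((cpd C).p2.fp k).map y)
      (((cpd C).p2.fp k).map z ⊔ ((pcd Q).pull (cpd C).p1) k) = I x y (z ⊔ pcd Q k) := by
  filter_upwards [pcd_cpd hC] with k hk x y z
  rw [hk]
  have e1 : ((cpd C).p2.fp k).map z ⊔ ((pcd Q).pull (cpd C).p2) k = ((cpd C).p2.fp k).map (z ⊔ pcd Q k) := by
    rw [FPj.map_sup]
    rfl
  rw [e1, FPj.I_map]

/-- the information of the copy about the old point -/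
theorem cpy_I_pt {Q : S.VV M} {C : ∀ k, (S.F k).Ω → α k} (hC : Dtm Q C) : ∀ᶠ k in UF, ∀ x z : FL (S.F k),
    I (((cpd C).p2.fp k).map x) (((pcd Q).pull (cpd C).p1) k) (((cpd C).p2.fp k).map z) = I x (pcd Q k) z := by
  filter_upwards [pcd_cpd hC] with k hk x z
  rw [hk]
  exact FPj.I_map _ _ _ _

/-- entropies of the old system -/
theorem cpy_old_I (C : ∀ k, (S.F k).Ω → α k) (k : ℕ) (x y z : FL (S.F k)) :
    I (((cpd C).p1.fp k).map x) (((cpd C).p1.fp k).map y) (((cpd C).p1.fp k).map z) = I x y z := FPj.I_map _ _ _ _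

/-! ### independence given the point -/

/-- GIVEN THE POINT (and the base) the old space and the copy are independent, if the common variable is the finest cell
of the point -/
theorem cpy_indep (Q : S.VV M) (k : ℕ) (x y : FL (S.F k)) :
    I (((cpd (fun k ω => Q.cellv 1 k ω)).p1.fp k).map x) (((cpd (fun k ω => Q.cellv 1 k ω)).p2.fp k).map y)
      (((pcd Q).pull (cpd (fun k ω => Q.cellv 1 k ω)).p1) k) = 0 :=
  cpd_indep (fun k ω => Q.cellv 1 k ω) k x y

/-- the same given the point and any part of the old space -/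
theorem cpd_indep_of (C : ∀ k, (S.F k).Ω → α k) (k : ℕ) (x y z : FL (S.F k)) (hz : fc (Setoid.ker (C k)) ≤ z) :
    I (((cpd C).p1.fp k).map x) (((cpd C).p2.fp k).map y) (((cpd C).p1.fp k).map z) = 0 := by
  apply le_antisymm _ (I_nonneg _ _ _)
  have h1 := cpd_indep C k (x ⊔ z) y
  rw [FPj.map_sup, sup_comm, I_chain] at h1
  have h2 := I_nonneg (((cpd C).p1.fp k).map z) (((cpd C).p2.fp k).map y)
    (((cpd C).p1.fp k).map (fc (Setoid.ker (C k))))
  have e1 : ((cpd C).p1.fp k).map z ⊔ ((cpd C).p1.fp k).map (fc (Setoid.ker (C k))) = ((cpd C).p1.fp k).map z :=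
    sup_eq_left.mpr ((cpd C).p1.fp k |>.map_mono hz)
  rw [e1] at h1
  linarith

end

end Pool.Agent.Helper84.MT
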