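import Pool.Agent.Helper81.CPY.Cpy

/-! Triples of partitions with `I (X; Y | Z) = o(n)`: extensions, events of extensions, change of the base and of the
unit, spaces over a label. -/

set_option autoImplicit false

namespace Pool.Agent.Helper81.CPY

open Finset Filter Topology Matrix Pool.Agent.Helper69.RK Pool.Agent.Helper31.EC Pool.Agent.Helper31.EC.Sp
open Pool.Agent.Helper40.EL

noncomputable section

/-- `X` and `Y` are independent given `Z`, in rates -/
def NI {S : Sp} (X Y Z : Part S) : Prop := Nul S (fun k => I (X k) (Y k) (Z k))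

variable {S T : Sp} {X Y Z X' Y' Z' W : Part S}

theorem NI.symm (h : NI X Y Z) : NI Y X Z := by
  unfold NI
  have e1 : (fun k => I (Y k) (X k) (Z k)) = fun k => I (X k) (Y k) (Z k) := funext fun k => I_comm _ _ _
  rw [e1]
  exact h

theorem NI_of_zero (h : ∀ᶠ k in UF, I (X k) (Y k) (Z k) = 0) : NI X Y Z :=
  (Nul_zero S).of_le (Eventually.of_forall fun k => I_nonneg _ _ _) (h.mono fun _ hk => hk.le)

/-- coarser first and second partitions, exactly -/
theorem NI.mono (h : NI X Y Z) (hX : ∀ᶠ k in UF, X' k ≤ X k ⊔ Z k) (hY : ∀ᶠ k in UF, Y' k ≤ Y k ⊔ Z k) :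
    NI X' Y' Z := by
  apply h.of_le (Eventually.of_forall fun k => I_nonneg _ _ _)
  filter_upwards [hX, hY] with k h1 h2
  exact (I_mono_left h1).trans (I_mono_right h2)

/-- equal triples -/
theorem NI.congr (h : NI X Y Z) (hX : ∀ᶠ k in UF, X' k = X k) (hY : ∀ᶠ k in UF, Y' k = Y k)
    (hZ : ∀ᶠ k in UF, Z' k = Z k) : NI X' Y' Z' := by
  apply h.of_le (Eventually.of_forall fun k => I_nonneg _ _ _)
  filter_upwards [hX, hY, hZ] with k h1 h2 h3
  rw [h1, h2, h3]

/-- finite lattices: more information in the condition -/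
theorem I_more {L : Type*} [PM L] {x y z w o : L} (hy : y ≤ o) (hx : x ≤ o) (hz : z ≤ o) :
    I x y (z ⊔ w) ≤ I x y z + I w o z := by
  have h1 : I (w ⊔ x) y z = I w y z + I x y (w ⊔ z) := I_chain _ _ _ _
  have h2 : I (x ⊔ w) y z = I x y z + I w y (x ⊔ z) := I_chain _ _ _ _
  rw [sup_comm x w] at h2
  have h3 : I w y (x ⊔ z) ≤ I w o (x ⊔ z) := I_mono_right (hy.trans le_sup_left)
  have h4 : I w o (x ⊔ z) ≤ I w o z := leak_cond le_sup_right (sup_le hx hz)
  have h5 := I_nonneg w y z
  rw [sup_comm z w]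
  linarith

/-- more information in the condition: a partition which is known to the condition -/
theorem NI.more (h : NI X Y Z) (hW : PLe W Z) : NI X Y (fun k => Z k ⊔ W k) := by
  have h1 : Nul S (fun k => I (X k) (Y k) (Z k) + Pool.Agent.Helper31.EC.h (W k) (Z k)) := Nul.add h hW
  apply h1.of_le (Eventually.of_forall fun k => I_nonneg _ _ _)
  refine Eventually.of_forall fun k => ?_
  have h2 := I_more (x := X k) (y := Y k) (z := Z k) (w := W k) (o := X k ⊔ Y k ⊔ Z k)
    (le_sup_right.trans le_sup_left) (le_sup_left.trans le_sup_left) le_sup_right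
  have h3 : I (W k) (X k ⊔ Y k ⊔ Z k) (Z k) ≤ Pool.Agent.Helper31.EC.h (W k) (Z k) := I_le_h_left _ _ _
  linarith

/-- replacement of all three partitions, finite lattices -/
theorem I_repl {L : Type*} [PM L] (x y z x' y' z' : L) :
    I x' y' z' ≤ I x y z + (h x' x + h y' y + (h z z' + h z' z)) := by
  have h1 : I x' y' z' ≤ I (x ⊔ x') y' z' := I_mono_left (le_sup_right.trans le_sup_left)
  rw [I_chain] at h1
  have h2 : I x' y' (x ⊔ z') ≤ h x' x := (I_le_h_left _ _ _).trans (h_anti le_sup_left)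
  have h3 : I x y' z' ≤ I x (y ⊔ y') z' := I_mono_right (le_sup_right.trans le_sup_left)
  rw [I_chain_right] at h3
  have h4 : I x y' (y ⊔ z') ≤ h y' y := (I_le_h_right _ _ _).trans (h_anti le_sup_left)
  have h5 : I x y z' ≤ I x (z ⊔ y) z' := I_mono_right (le_sup_right.trans le_sup_left)
  rw [I_chain_right] at h5
  have h6 : I x z z' ≤ h z z' := I_le_h_right _ _ _
  have h7 := I_more (x := x) (y := y) (z := z) (w := z') (o := x ⊔ y ⊔ z)
    (le_sup_right.trans le_sup_left) (le_sup_left.trans le_sup_left) le_sup_right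
  have h8 : I z' (x ⊔ y ⊔ z) z ≤ h z' z := I_le_h_left _ _ _
  linarith

/-- replacement of all three partitions, in rates -/
theorem NI.rates (h : NI X Y Z) (hX : PLe X' X) (hY : PLe Y' Y) (hZ : PLe Z Z') (hZ' : PLe Z' Z) : NI X' Y' Z' := by
  have h1 : Nul S (fun k => I (X k) (Y k) (Z k) + (Pool.Agent.Helper31.EC.h (X' k) (X k) +
      Pool.Agent.Helper31.EC.h (Y' k) (Y k) + (Pool.Agent.Helper31.EC.h (Z k) (Z' k) +
      Pool.Agent.Helper31.EC.h (Z' k) (Z k)))) := Nul.add h (Nul.add (Nul.add hX hY) (Nul.add hZ hZ'))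
  apply h1.of_le (Eventually.of_forall fun k => I_nonneg _ _ _)
  exact Eventually.of_forall fun k => I_repl _ _ _ _ _ _

/-! ### extensions -/

theorem NI_pull (p : Pj T S) : NI (X.pull p) (Y.pull p) (Z.pull p) ↔ NI X Y Z := by
  have e1 : (fun k => I (X.pull p k) (Y.pull p k) (Z.pull p k)) = fun k => I (X k) (Y k) (Z k) :=
    funext fun k => (p.fp k).I_map _ _ _
  unfold NI
  rw [e1]
  exact Lab.nul_pj p

/-- events -/
theorem NI.rest (h : NI X Y Z) (A : ∀ k, (S.F k).Ω → Prop) (hA : 0 < ul (S.pr A)) :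
    NI (X.rest A) (Y.rest A) (Z.rest A) :=
  Nul.div_pr hA h (fun _ => I_nonneg _ _ _) fun k => (S.F k).rmap_I_le (A k) _ _ _

/-- events of extensions -/
theorem NI.im (h : NI X Y Z) (p : Pj T S) (A : ∀ k, (T.F k).Ω → Prop) (hA : 0 < ul (T.pr A)) :
    NI (X.im p A) (Y.im p A) (Z.im p A) := by
  have h1 := ((NI_pull p).2 h).rest A hA
  rw [← NI_pull (Sp.imq p A), Part.im_pull, Part.im_pull, Part.im_pull]
  exact h1

/-! ### change of the base and of the unit -/

/-- partitions over a finer base -/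
def chP (W : ∀ k, Setoid (S.F k).Ω) (c : ℝ) (hc : 0 < c) (X : Part S) : Part (S.chg W c hc) :=
  fun k => (frb (S.F k) (W k) c hc).map (X k)

theorem nul_chg {W : ∀ k, Setoid (S.F k).Ω} {c : ℝ} {hc : 0 < c} {f : ℕ → ℝ} : Nul (S.chg W c hc) f ↔ Nul S f := by
  have h1 : (fun k => f k / ((S.chg W c hc).F k).n) = fun k => c⁻¹ * (f k / (S.F k).n) := by
    funext k
    show f k / (c * (S.F k).n) = _
    rw [mul_comm c, ← div_div, div_eq_inv_mul]
  have h2 : (fun k => f k / (S.F k).n) = fun k => c * (f k / ((S.chg W c hc).F k).n) := by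
    funext k
    rw [congrFun h1 k, ← mul_assoc, mul_inv_cancel₀ hc.ne', one_mul]
  constructor
  · intro h
    have h3 := Tendsto.const_mul c h
    rw [mul_zero] at h3
    unfold Nul
    rw [h2]; exact h3
  · intro h
    have h3 := Tendsto.const_mul c⁻¹ h
    rw [mul_zero] at h3
    unfold Nul
    rw [h1]; exact h3

theorem NI_chP (W : ∀ k, Setoid (S.F k).Ω) (c : ℝ) (hc : 0 < c) : NI (chP W c hc X) (chP W c hc Y) (chP W c hc Z) ↔
    NI X Y (fun k => Z k ⊔ fc (W k)) := by
  have e1 : (fun k => I (chP W c hc X k) (chP W c hc Y k) (chP W c hc Z k)) =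
      fun k => I (X k) (Y k) (Z k ⊔ fc (W k)) := funext fun k => (frb (S.F k) (W k) c hc).I_map _ _ _
  unfold NI
  rw [e1]
  exact nul_chg

/-- a base which is known to the condition -/
theorem NI.chP (h : NI X Y Z) (W : ∀ k, Setoid (S.F k).Ω) (c : ℝ) (hc : 0 < c)
    (hW : PLe (fun k => fc (W k)) Z) : NI (chP W c hc X) (chP W c hc Y) (chP W c hc Z) :=
  (NI_chP W c hc).2 (h.more hW)

/-- THE SPACE OVER A LABEL without leak at the condition -/
theorem NI.up (h : NI X Y Z) (l : Lab S) (c : ℝ) (hc : 0 < c) (hl : Nul S (fun k => (l k).leak (Z k))) :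
    NI (l.up c hc X) (l.up c hc Y) (l.up c hc Z) := by
  have h1 : Nul S (fun k => I (X k) (Y k) (Z k) + (l k).leak (Z k)) := Nul.add h hl
  have h2 : Nul (l.ovr c hc) (fun k => I (X k) (Y k) (Z k) + (l k).leak (Z k)) := (Lab.nul_over l c hc).2 h1
  apply h2.of_le (Eventually.of_forall fun k => I_nonneg _ _ _)
  refine Eventually.of_forall fun k => ?_
  have e1 : I (l.up c hc X k) (l.up c hc Y k) (l.up c hc Z k) =
      I ((l k).p.map (X k)) ((l k).p.map (Y k)) ((l k).p.map (Z k) ⊔ (l k).v) :=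
    (frb (l k).T (l k).V c hc).I_map _ _ _
  rw [e1]
  have h3 := I_more (x := (l k).p.map (X k)) (y := (l k).p.map (Y k)) (z := (l k).p.map (Z k)) (w := (l k).v)
    (o := (l k).p.top) ((l k).p.map_le_top _) ((l k).p.map_le_top _) ((l k).p.map_le_top _)
  rw [(l k).p.I_map] at h3
  exact h3

end

end Pool.Agent.Helper81.CPY
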