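import Pool.Agent.Helper81.CPY.Amv
import Pool.Agent.Helper81.CPY.Cpy
import Pool.Agent.Helper89.MG.Typf
import Pool.Agent.Helper31.EC.Real

/-! COPIES GIVEN THE WINDOW `0` OF A TYPE. Let `L` be a label without leak at the window `0` of a leaf `l` and let `A` be
forms known to the label. Take a copy of the label given the window `0` (the leaf and the unit cell of the parameter).
The copied form is typically not larger at the OLD point than the form at the point, and the old point has as much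
entropy given the copied label as it has given the label, up to the leak at the point. -/

set_option autoImplicit false

namespace Pool.Agent.Helper81.CPY

open Finset Filter Topology Matrix Pool.Agent.Helper69.RK Pool.Agent.Helper31.EC Pool.Agent.Helper31.EC.Sp
open Pool.Agent.Helper40.EL Pool.Agent.Helper84.MT Pool.Agent.Helper89.LX Pool.Agent.Helper3.LF
open Pool.Agent.Helper95.LF (PdM)

noncomputable section

variable {S T : Sp} {M D : ℕ} {E : ℕ → ℕ}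

/-- the class of the window `c`, as a literal variable -/
def wnC {Q : S.VV M} (l : Leaf S Q E) (c : ℝ) : ∀ k, (S.F k).Ω → Quotient (l.La k ⊓ Setoid.ker (l.Y.cellv c k)) :=
  fun k ω => Quotient.mk _ ω

theorem wnC_iff {Q : S.VV M} (l : Leaf S Q E) (c : ℝ) (k : ℕ) (ω ω' : (S.F k).Ω) :
    wnC l c k ω = wnC l c k ω' ↔ l.La k ω ω' ∧ l.Y.cellv c k ω = l.Y.cellv c k ω' := by
  constructor
  · intro h
    exact Quotient.exact h
  · intro h
    exact Quotient.sound h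

theorem ker_wnC {Q : S.VV M} (l : Leaf S Q E) (c : ℝ) (k : ℕ) :
    Setoid.ker (wnC l c k) = l.La k ⊓ Setoid.ker (l.Y.cellv c k) := by
  ext ω ω'
  exact wnC_iff l c k ω ω'

/-- the old space and the copy are independent given the window -/
theorem wnC_indep {Q : S.VV M} (l : Leaf S Q E) (L : Lab S) (c : ℝ) (X : Part S) (Y : Part L.sp) :
    NI (X.pull (cpl L (wnC l c)).p1) (Y.pull (cpl L (wnC l c)).p2) ((l.win c).pull (cpl L (wnC l c)).p1) := by
  refine NI_of_zero (Eventually.of_forall fun k => ?_)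
  have h1 := amv_indep (Pj.id S) L.pj (wnC l c) k (X k) (Y k)
  rw [ker_wnC] at h1
  exact h1

/-- CONTAINMENT at the old point -/
theorem cpl_phi {Q : S.VV M} (l : Leaf S Q E) {c : ℝ} (h0 : 0 ≤ c) (h1 : c < 1) (L : Lab S)
    (hL : Nul S (fun k => (L k).leak (l.win c k)))
    (A : ∀ k, (L k).T.Ω → Matrix (Mon M D) (Mon M D) ℝ) (hA : ∀ᶠ k in UF, ∀ w, (L k).T.μ w ≠ 0 → PdM (A k w))
    (hm : ∀ᶠ k in UF, ∀ w w', (L k).T.μ w ≠ 0 → (L k).T.μ w' ≠ 0 → (L k).T.Z w w' → (L k).V w w' →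
      l.La k ((L k).p.π w) ((L k).p.π w') → A k w = A k w') :
    ∃ K' : ℕ → ℝ, S.Sub K' ∧ Typ (S := (cpl L (wnC l c)).sp) (fun k w =>
      phi (S.dl 1 k) (A k w.2) (Q.v k w.1) ≤ K' k * phi (S.dl 1 k) (A k w.2) (Q.v k ((L k).p.π w.2))) := by
  obtain ⟨K1, hK1, hT⟩ := typ_phi l h0 h1 L hL A hA hm
  obtain ⟨K2, hK2, hK21, hn⟩ := pt_near l
  refine ⟨fun k => cM M D (K2 k) * K1 k, (cM_Sub M D hK2 hK21).mul hK1,
    ((cpl L (wnC l c)).p2.typ_iff.2 hT).mono ?_⟩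
  filter_upwards [hA, hK21, hn, l.fn] with k g1 g3 g4 g5 w hw g6
  have hs := amv_supp (Pj.id S) L.pj (wnC l c) k w hw
  have he := amv_eq (Pj.id S) L.pj (wnC l c) k w hw
  have hb := amv_base (Pj.id S) L.pj (wnC l c) k w hw
  have hc := (wnC_iff l c k _ _).mp he
  have hP : PdM (A k w.2) := g1 w.2 hs.2
  have hs2 : (S.F k).μ ((L k).p.π w.2) ≠ 0 := (L k).p.supp w.2 hs.2
  have hF : l.F k w.1 = l.F k ((L k).p.π w.2) := g5 _ _ hs.1 hs2 hb hc.1
  have h2 := g6 (l.Y.v k w.1) (fun i => by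
    have h3 : ⌊l.Y.v k w.1 i / S.dl c k⌋ = ⌊l.Y.v k ((L k).p.π w.2) i / S.dl c k⌋ := congrFun hc.2 i
    have hd := S.dl_pos c k
    have h4 := Int.abs_sub_lt_one_of_floor_eq_floor h3
    rw [← sub_div, abs_div, abs_of_pos hd, div_lt_one hd] at h4
    exact h4)
  have h5 : phi (S.dl 1 k) (A k w.2) (Q.v k w.1) ≤ cM M D (K2 k) * phi (S.dl 1 k) (A k w.2)
      (l.F k w.1 (l.Y.v k w.1)) :=
    phi_comp (A k w.2) hP (S.dl 1 k) (S.dl 1 k) (K2 k) (S.dl_pos 1 k) (S.dl_pos 1 k).le g3 _ _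
      (fun i => (g4 _ hs.1 i).1)
  refine h5.trans ?_
  rw [mul_assoc]
  apply mul_le_mul_of_nonneg_left _ (zero_le_one.trans (cM_one M D g3))
  rw [hF]
  exact h2

/-! ### the copied label as a label of the old space -/

/-- THE COPY of a label given a literal variable, as a label of the old space -/
def cpLab {α : ℕ → Type} (L : Lab S) (C : ∀ k, (S.F k).Ω → α k) : Lab S := fun k =>
  ⟨(cpl L C).sp.F k, (cpl L C).p1.fp k, (cpl L C).p1.hn k, Setoid.comap ((cpl L C).p2.π k) (L k).V⟩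

section
variable {α : ℕ → Type} (L : Lab S) (C : ∀ k, (S.F k).Ω → α k)

theorem cpLab_sp : (cpLab L C).sp = (cpl L C).sp := rfl

theorem cpLab_v (k : ℕ) : (cpLab L C k).v = ((cpl L C).p2.fp k).map (L k).v := rfl

/-- no leak at anything finer than `C`, exactly -/
theorem cpLab_leak (k : ℕ) {x : FL (S.F k)} (hx : fc (Setoid.ker (C k)) ≤ x) : (cpLab L C k).leak x = 0 := by
  apply le_antisymm _ (FLab.leak_nonneg _ _)
  refine ((cpLab L C k).leak_anti hx).trans (le_of_eq ?_)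
  have h1 := amv_indep (Pj.id S) L.pj C k (fc ⊥) (L k).v
  rw [fp_map_bot, I_comm] at h1
  exact h1

theorem cpLab_info_le (k : ℕ) : (cpLab L C k).info ≤ (L k).info := by
  have h1 := amv_info_le (Pj.id S) L.pj C k (fc ⊥) (L k).v
  rw [fp_map_bot, I_comm] at h1
  refine le_trans h1 ?_
  rw [I_comm]
  exact I_mono_right (((L k).p.map_le_top _).trans le_sup_left)

/-- the information of the copied label about `x` is at most the information of the label about `x` plus the leak -/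
theorem cpLab_full (k : ℕ) (x : FL (S.F k)) : h ((L k).p.map x) (L k).v - (L k).leak x ≤
    h ((cpLab L C k).p.map x) (cpLab L C k).v := cpl_full L C k x

end

section
variable {Q : S.VV M} (l : Leaf S Q E) (L : Lab S) {c : ℝ}

theorem cpLab_nul : Nul S (fun k => (cpLab L (wnC l c) k).leak (l.win c k)) := by
  refine (Nul_zero S).of_le (Eventually.of_forall fun k => FLab.leak_nonneg _ _) (Eventually.of_forall fun k => ?_)
  apply le_of_eq
  apply cpLab_leak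
  rw [ker_wnC]
  exact le_rfl

/-- the leaf and the window agree at the old point and at the point of the copy -/
theorem wnC_agree (k : ℕ) (w : ((cpl L (wnC l c)).sp.F k).Ω) (hw : ((cpl L (wnC l c)).sp.F k).μ w ≠ 0) :
    (S.F k).μ w.1 ≠ 0 ∧ (L k).T.μ w.2 ≠ 0 ∧ (S.F k).μ ((L k).p.π w.2) ≠ 0 ∧ (S.F k).Z w.1 ((L k).p.π w.2) ∧
      l.La k w.1 ((L k).p.π w.2) ∧ ∀ i, |l.Y.v k w.1 i - l.Y.v k ((L k).p.π w.2) i| < S.dl c k := by
  have hs := amv_supp (Pj.id S) L.pj (wnC l c) k w hw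
  have he := amv_eq (Pj.id S) L.pj (wnC l c) k w hw
  have hb := amv_base (Pj.id S) L.pj (wnC l c) k w hw
  have hc := (wnC_iff l c k _ _).mp he
  refine ⟨hs.1, hs.2, (L k).p.supp w.2 hs.2, hb, hc.1, fun i => ?_⟩
  have h3 : ⌊l.Y.v k w.1 i / S.dl c k⌋ = ⌊l.Y.v k ((L k).p.π w.2) i / S.dl c k⌋ := congrFun hc.2 i
  have hd := S.dl_pos c k
  have h4 := Int.abs_sub_lt_one_of_floor_eq_floor h3
  rw [← sub_div, abs_div, abs_of_pos hd, div_lt_one hd] at h4
  exact h4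

variable (hL : Nul S (fun k => (L k).leak (l.win c k)))
  (g : ∀ k, (L k).T.Ω → (Fin M → ℝ) → ℝ) (hg : ∀ᶠ k in UF, ∀ w, (L k).T.μ w ≠ 0 → g k w ∈ polyAl M 1 D)
  {κ : ℕ → ℝ} (hκ : S.Sub κ) (hm : ∀ᶠ k in UF, ∀ w w', (L k).T.μ w ≠ 0 → (L k).T.μ w' ≠ 0 → (L k).T.Z w w' →
      (L k).V w w' → l.La k ((L k).p.π w) ((L k).p.π w') → (∀ i, ⌊l.Y.v k ((L k).p.π w) i / S.dl c k⌋ =
        ⌊l.Y.v k ((L k).p.π w') i / S.dl c k⌋) → ∀ p, |g k w' p| ≤ κ k * |g k w p|)

include hL hg hκ hm in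
/-- polynomials known to the label are typically not larger at the old point of the chart -/
theorem cpl_pol (h0 : 0 ≤ c) (h1 : c < 1) : ∃ K' : ℕ → ℝ, S.Sub K' ∧ Typ (S := (cpl L (wnC l c)).sp) (fun k w =>
      |g k w.2 (l.F k w.1 (l.Y.v k w.1))| ≤
        K' k * |g k w.2 (l.F k ((L k).p.π w.2) (l.Y.v k ((L k).p.π w.2)))|) := by
  obtain ⟨K1, hK1, hT⟩ := typ_pol l h0 h1 L hL g hg hκ hm
  refine ⟨K1, hK1, ((cpl L (wnC l c)).p2.typ_iff.2 hT).mono ?_⟩
  filter_upwards [l.fn] with k g5 w hw g6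
  obtain ⟨a1, a2, a3, a4, a5, a6⟩ := wnC_agree l L k w hw
  have hF : l.F k w.1 = l.F k ((L k).p.π w.2) := g5 _ _ a1 a3 a4 a5
  rw [hF]
  exact g6 (l.Y.v k w.1) a6

include hg hκ hm in
/-- polynomials known to the label are typically not larger at the point of the copy than at the old point -/
theorem cpl_pol' (h0 : 0 ≤ c) (h1 : c < 1) : ∃ K' : ℕ → ℝ, S.Sub K' ∧ Typ (S := (cpl L (wnC l c)).sp) (fun k w =>
      |g k w.2 (l.F k ((L k).p.π w.2) (l.Y.v k ((L k).p.π w.2)))| ≤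
        K' k * |g k w.2 (l.F k w.1 (l.Y.v k w.1))|) := by
  obtain ⟨K1, hK1, hT⟩ := typ_pol l h0 h1 (cpLab L (wnC l c)) (cpLab_nul l L) (D := D) (fun k w => g k w.2) (by
      filter_upwards [hg] with k hk w hw
      exact hk w.2 (wnC_agree l L k w hw).2.1) hκ (by
      filter_upwards [hm] with k hk w w' hw hw' hZ hV hLa hc p
      obtain ⟨a1, a2, a3, a4, a5, a6⟩ := wnC_agree l L k w hw
      obtain ⟨b1, b2, b3, b4, b5, b6⟩ := wnC_agree l L k w' hw'
      have e1 := (wnC_iff l c k _ _).mp (amv_eq (Pj.id S) L.pj (wnC l c) k w hw)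
      have e2 := (wnC_iff l c k _ _).mp (amv_eq (Pj.id S) L.pj (wnC l c) k w' hw')
      have hZ' : (L k).T.Z w.2 w'.2 := ((cpl L (wnC l c)).p2.hZ k w w' hw hw').mp hZ
      have hLa' : l.La k ((L k).p.π w.2) ((L k).p.π w'.2) :=
        (l.La k).trans ((l.La k).symm a5) ((l.La k).trans hLa b5)
      exact hk w.2 w'.2 a2 b2 hZ' hV hLa' (fun i => by
        have c1 : l.Y.cellv c k w.1 i = l.Y.cellv c k ((L k).p.π w.2) i := congrFun e1.2 i
        have c2 : l.Y.cellv c k w'.1 i = l.Y.cellv c k ((L k).p.π w'.2) i := congrFun e2.2 i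
        have c3 : l.Y.cellv c k w.1 i = l.Y.cellv c k w'.1 i := hc i
        exact c1.symm.trans (c3.trans c2)) p)
  refine ⟨K1, hK1, Typ.mono (S := (cpl L (wnC l c)).sp) hT ?_⟩
  filter_upwards [l.fn] with k g5 w hw g6
  obtain ⟨a1, a2, a3, a4, a5, a6⟩ := wnC_agree l L k w hw
  have hF : l.F k w.1 = l.F k ((L k).p.π w.2) := g5 _ _ a1 a3 a4 a5
  have h2 := g6 (l.Y.v k ((L k).p.π w.2)) (fun i => by
    rw [abs_sub_comm]
    exact a6 i)
  have h3 : |g k w.2 (l.F k w.1 (l.Y.v k ((L k).p.π w.2)))| ≤ K1 k * |g k w.2 (l.F k w.1 (l.Y.v k w.1))| := h2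
  rw [← hF]
  exact h3

end

/-- the forms at the point of the copy are typically not larger than at the old point -/
theorem cpl_phi' {Q : S.VV M} (l : Leaf S Q E) {c : ℝ} (h0 : 0 ≤ c) (h1 : c < 1) (L : Lab S)
    (A : ∀ k, (L k).T.Ω → Matrix (Mon M D) (Mon M D) ℝ) (hA : ∀ᶠ k in UF, ∀ w, (L k).T.μ w ≠ 0 → PdM (A k w))
    (hm : ∀ᶠ k in UF, ∀ w w', (L k).T.μ w ≠ 0 → (L k).T.μ w' ≠ 0 → (L k).T.Z w w' → (L k).V w w' →
      l.La k ((L k).p.π w) ((L k).p.π w') → A k w = A k w') :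
    ∃ K' : ℕ → ℝ, S.Sub K' ∧ Typ (S := (cpl L (wnC l c)).sp) (fun k w =>
      phi (S.dl 1 k) (A k w.2) (Q.v k ((L k).p.π w.2)) ≤ K' k * phi (S.dl 1 k) (A k w.2) (Q.v k w.1)) := by
  obtain ⟨K1, hK1, hT⟩ := cpl_pol' l L (D := D + D) (fun k w p => phi (S.dl 1 k) (A k w) p)
    (Eventually.of_forall fun k w _ => phi_mem _ _) (κ := fun _ => 1) (S.Sub_const zero_le_one) (by
      filter_upwards [hm] with k hk w w' hw hw' hZ hV hLa _ p
      rw [hk w w' hw hw' hZ hV hLa, one_mul]) h0 h1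
  obtain ⟨K2, hK2, hK21, hn⟩ := pt_near l
  refine ⟨fun k => cM M D (K2 k) * (K1 k * cM M D (K2 k)), (cM_Sub M D hK2 hK21).mul
    (hK1.mul (cM_Sub M D hK2 hK21)), hT.mono ?_⟩
  filter_upwards [hA, hK21, hn, hK1.1] with k g1 g3 g4 g7 w hw g6
  obtain ⟨a1, a2, a3, a4, a5, a6⟩ := wnC_agree l L k w hw
  have hP : PdM (A k w.2) := g1 w.2 a2
  rw [abs_of_nonneg (phi_nonneg _ (fun x => hP.nonneg x) _), abs_of_nonneg (phi_nonneg _ (fun x => hP.nonneg x) _)] at g6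
  have b1 : phi (S.dl 1 k) (A k w.2) (Q.v k ((L k).p.π w.2)) ≤ cM M D (K2 k) * phi (S.dl 1 k) (A k w.2)
      (l.F k ((L k).p.π w.2) (l.Y.v k ((L k).p.π w.2))) := phi_comp (A k w.2) hP (S.dl 1 k) (S.dl 1 k) (K2 k) (S.dl_pos 1 k) (S.dl_pos 1 k).le g3
    (l.F k ((L k).p.π w.2) (l.Y.v k ((L k).p.π w.2))) (Q.v k ((L k).p.π w.2)) (fun i => (g4 _ a3 i).1)
  have b2 : phi (S.dl 1 k) (A k w.2) (l.F k w.1 (l.Y.v k w.1)) ≤ cM M D (K2 k) * phi (S.dl 1 k) (A k w.2)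
      (Q.v k w.1) := phi_comp (A k w.2) hP (S.dl 1 k) (S.dl 1 k) (K2 k) (S.dl_pos 1 k) (S.dl_pos 1 k).le g3
    (Q.v k w.1) (l.F k w.1 (l.Y.v k w.1)) (fun i => (g4 _ a1 i).2)
  have b3 := mul_le_mul_of_nonneg_left (g6.trans (mul_le_mul_of_nonneg_left b2 g7)) (zero_le_one.trans
    (cM_one M D g3))
  refine (b1.trans b3).trans (le_of_eq ?_)
  rw [mul_assoc, mul_assoc]

end

end Pool.Agent.Helper81.CPY
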